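import Pool.Agent.L5helper19.AA.Mix
import Pool.Agent.L5helper29.ID.Exc

/-!
# The exceptional set of an independent family, relative to an arbitrary finite stable set
-/

set_option autoImplicit false
set_option linter.all false

namespace Pool.Agent.L5helper19.AA

open Finset Pool.Agent.L5helper29.AS Pool.Agent.L5helper29.SE Pool.Agent.L5helper29.AA
open Pool.Agent.L5helper29.ID (exc_all index_stab)

/-- the exceptional indices (adapted from `L5helper29.ID.Main`) -/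
theorem exc_main {J : Type} (G : Subgroup (RingAut ℂ)) (A : J → Finset ℂ) (B : Finset ℂ)
    (hBG : ∀ τ ∈ G, ∀ b ∈ B, τ b ∈ B)
    (hI : ∀ (F : Finset J) (j : J), j ∉ F →
      ∃ τ ∈ G, (∀ i ∈ F, ∀ x ∈ A i, τ x = x) ∧ ∃ x ∈ A j, τ x ≠ x) :
    ∃ E : Set J, E.Finite ∧ 2 ^ E.ncard ≤ B.card.factorial ∧
      ∀ F : Finset J, Disjoint (F : Set J) E → ∀ j ∈ F,
        ∃ τ ∈ G, (∀ i ∈ F, i ≠ j → ∀ x ∈ A i, τ x = x) ∧ (∀ b ∈ B, τ b = b) ∧
          ∃ x ∈ A j, τ x ≠ x := by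
  classical
  letI act : MulAction G B :=
    { smul := fun τ x => ⟨(τ : RingAut ℂ) (x : ℂ), hBG τ τ.2 x x.2⟩
      one_smul := fun x => Subtype.ext rfl
      mul_smul := fun τ τ' x => Subtype.ext rfl }
  let N : J → Subgroup G := fun j =>
    { carrier := {τ | ∀ x ∈ A j, (τ : RingAut ℂ) x = x}
      one_mem' := fun x _ => rfl
      mul_mem' := by
        intro a b ha hb x hx
        change (a : RingAut ℂ) ((b : RingAut ℂ) x) = x
        rw [hb x hx, ha x hx]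
      inv_mem' := by
        intro a ha x hx
        change (a : RingAut ℂ).symm x = x
        rw [RingEquiv.symm_apply_eq]
        exact (ha x hx).symm }
  have hN : ∀ j (τ : G), τ ∈ N j ↔ ∀ x ∈ A j, (τ : RingAut ℂ) x = x := fun j τ => Iff.rfl
  have hNinf : ∀ (F : Finset J) (τ : G), (τ ∈ ⨅ i ∈ F, N i) ↔ ∀ i ∈ F, ∀ x ∈ A i,
      (τ : RingAut ℂ) x = x := by
    intro F τ
    simp only [Subgroup.mem_iInf, hN]
  have hker : ∀ τ : G, τ ∈ (MulAction.toPermHom G B).ker ↔ ∀ b ∈ B, (τ : RingAut ℂ) b = b := by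
    intro τ
    rw [MonoidHom.mem_ker]
    constructor
    · intro h b hb
      have h1 := congrArg (fun f : Equiv.Perm B => ((f ⟨b, hb⟩ : B) : ℂ)) h
      exact h1
    · intro h
      ext b
      exact h b b.2
  obtain ⟨h1, h2⟩ := index_stab (Γ := G) (X := B)
  rw [Fintype.card_coe] at h2
  obtain ⟨E, hE, hE2, hE3⟩ := exc_all N (MulAction.toPermHom G B).ker h1 (by
    intro F j hj hle
    obtain ⟨τ, hτ, f1, x, hx, f2⟩ := hI F j hj
    have h3 : (⟨τ, hτ⟩ : G) ∈ ⨅ i ∈ F, N i := (hNinf F _).2 f1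
    exact f2 ((hN j _).1 (hle h3) x hx))
  refine ⟨E, hE, hE2.trans h2, ?_⟩
  intro F hF j hj
  have h3 := hE3 F hF j hj
  rw [SetLike.not_le_iff_exists] at h3
  obtain ⟨τ, hτ, hτ'⟩ := h3
  rw [Subgroup.mem_inf] at hτ
  have h4 := (hker τ).1 hτ.1
  have h5 := (hNinf _ τ).1 hτ.2
  rw [hN] at hτ'
  push Not at hτ'
  exact ⟨τ, τ.2, fun i hi hij => h5 i (Finset.mem_erase.2 ⟨hij, hi⟩), h4, hτ'⟩

section

variable {J : Type*} [Fintype J] [DecidableEq J]

/-- The exponents of the multiplicative relations between the elements of the sets `A j`, modulo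
roots of unity and the group generated by `q` and `B`, are constant on the sets `A j` which are of
unitary type, and equal at `x` and `q / x` for those of symplectic type. -/
def RelMix (q : ℕ) (G : Subgroup (RingAut ℂ)) (A : J → Finset ℂ) (B : Finset ℂ) : Prop :=
  ∀ (m : ∀ j, A j → ℤ) (N : ℕ), 0 < N → ∀ (k : ℤ) (n : ℂ → ℤ),
    mono A m ^ N = (q : ℂ) ^ k * ∏ b ∈ B, b ^ n b → ∀ j : J,
      (Blk G (A j) → ∀ x y : A j, m j x = m j y) ∧
      (BlkS q G (A j) → ∀ x y : A j, (x : ℂ) * y = q → m j x = m j y)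

/-- **The multiplicative relations.** -/
theorem relMix {q : ℕ} {A : J → Finset ℂ} {B : Finset ℂ} {G : Subgroup (RingAut ℂ)} (hq : 1 < q)
    (hA : ∀ j, Blk G (A j) ∨ BlkS q G (A j)) (hB0 : ∀ b ∈ B, b ≠ 0)
    (hBG : ∀ σ ∈ G, ∀ b ∈ B, σ b ∈ B)
    (h2 : ∀ j, ∃ σ ∈ G, (∀ i, i ≠ j → ∀ x ∈ A i, σ x = x) ∧ (∀ b ∈ B, σ b = b) ∧
      ∃ x ∈ A j, σ x ≠ x) : RelMix q G A B := by
  classical
  intro m N hN k n hm j
  have h0 : ∀ j, ∀ x ∈ A j, x ≠ 0 := fun j => by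
    rcases hA j with h | h
    · exact h.ne_zero
    · exact h.ne_zero
  have h1 := rel_mix A B G hq hA hB0 hBG j (h2 j)
    (fun o => match o with
      | none => fun x => - n x
      | some j => fun x => N * m j x) 1 one_pos k (by
      rw [pow_one]
      unfold mono
      rw [Fintype.prod_option]
      have e1 : ∏ j, ∏ x : A j, (x : ℂ) ^ ((N : ℤ) * m j x) = mono A m ^ N := by
        rw [← zpow_natCast, ← mono_smul h0]
        rfl
      have e2 : ∏ x : B, (x : ℂ) ^ (- n x) = (∏ b ∈ B, b ^ n b)⁻¹ := by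
        rw [prod_coe_sort B (fun x => x ^ (- n x)), ← prod_inv_distrib]
        exact prod_congr rfl fun x _ => zpow_neg _ _
      have e3 : (∏ b ∈ B, b ^ n b) ≠ 0 := prod_ne_zero_iff.2 fun b hb => zpow_ne_zero _ (hB0 b hb)
      refine Eq.trans (congrArg₂ (· * ·) e2 e1) ?_
      rw [hm]
      field_simp)
  have hN' : (N : ℤ) ≠ 0 := by exact_mod_cast hN.ne'
  constructor
  · intro h x y
    have h3 : (N : ℤ) * m j x = N * m j y := h1.1 h x y
    exact mul_left_cancel₀ hN' h3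
  · intro h x y hxy
    have h3 : (N : ℤ) * m j x = N * m j y := h1.2 h x y hxy
    exact mul_left_cancel₀ hN' h3

end

/-- **The exceptional set (blocks of both types).** -/
theorem exc_relMix {J : Type} [DecidableEq J] {q : ℕ} (hq : 1 < q) (G : Subgroup (RingAut ℂ))
    (A : J → Finset ℂ) (B : Finset ℂ) (hA : ∀ j, Blk G (A j) ∨ BlkS q G (A j))
    (hB0 : ∀ b ∈ B, b ≠ 0) (hBG : ∀ τ ∈ G, ∀ b ∈ B, τ b ∈ B)
    (hI : ∀ (F : Finset J) (j : J), j ∉ F →
      ∃ τ ∈ G, (∀ i ∈ F, ∀ x ∈ A i, τ x = x) ∧ ∃ x ∈ A j, τ x ≠ x) :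
    ∃ E : Set J, E.Finite ∧ 2 ^ E.ncard ≤ B.card.factorial ∧
      ∀ F : Finset J, Disjoint (F : Set J) E → RelMix q G (fun i : F => A i) B := by
  obtain ⟨E, hE, hE2, hE3⟩ := exc_main G A B hBG hI
  refine ⟨E, hE, hE2, fun F hF => ?_⟩
  refine relMix hq (fun j => hA j) hB0 hBG fun j => ?_
  obtain ⟨σ, hσ, h1, h2, h3⟩ := hE3 F hF j j.2
  exact ⟨σ, hσ, fun i hi => h1 i i.2 (fun h => hi (Subtype.ext h)), h2, h3⟩

/-- **The exceptional set (blocks of unitary type).** -/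
theorem exc_relConst {J : Type} [DecidableEq J] {q : ℕ} (hq : 1 < q) (G : Subgroup (RingAut ℂ))
    (A : J → Finset ℂ) (B : Finset ℂ) (hA : ∀ j, Blk G (A j))
    (hB0 : ∀ b ∈ B, b ≠ 0) (hBG : ∀ τ ∈ G, ∀ b ∈ B, τ b ∈ B)
    (hI : ∀ (F : Finset J) (j : J), j ∉ F →
      ∃ τ ∈ G, (∀ i ∈ F, ∀ x ∈ A i, τ x = x) ∧ ∃ x ∈ A j, τ x ≠ x) :
    ∃ E : Set J, E.Finite ∧ 2 ^ E.ncard ≤ B.card.factorial ∧
      ∀ F : Finset J, Disjoint (F : Set J) E → RelConst q (fun i : F => A i) B := by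
  obtain ⟨E, hE, hE2, hE3⟩ := exc_relMix hq G A B (fun j => Or.inl (hA j)) hB0 hBG hI
  refine ⟨E, hE, hE2, fun F hF m N hN k n hm j x y => ?_⟩
  exact (hE3 F hF m N hN k n hm j).1 (hA j) x y

end Pool.Agent.L5helper19.AA
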