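import Pool.Agent.L5helper19.AA.Frob3
import Pool.Agent.W458.MF.NStm

/-!
# A Frobenius element over `K` which exchanges two roots (adapted from `W976.MF.FLIP`)
-/

set_option autoImplicit false
set_option linter.all false

namespace Pool.Agent.L5helper19.AA

open Polynomial NumberField Pool.Agent.W458.MF Pool.Agent.W521.Frob Pool.Agent.L5helper29.AA

/-- an integral polynomial as a polynomial over the ring of integers of `K` -/
noncomputable def upZ (K : Type) [Field K] [NumberField K] (f : ℤ[X]) : (𝓞 K)[X] :=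
  f.map (Int.castRingHom (𝓞 K))

lemma isRt_upZ {K : Type} [Field K] [NumberField K] {τ : K →+* ℂ} (f : ℤ[X]) (x : ℂ) :
    IsRt τ (upZ K f) x ↔ aeval x f = 0 := by
  unfold IsRt upZ
  rw [Polynomial.map_map, eval_map, aeval_def,
    RingHom.ext_int ((τ.comp (algebraMap (𝓞 K) K)).comp (Int.castRingHom (𝓞 K)))
      (algebraMap ℤ ℂ)]

lemma upZ_map {K : Type} [Field K] [NumberField K] {r : ℕ} (φ : 𝓞 K →+* ZMod r) (f : ℤ[X]) :
    (upZ K f).map φ = f.map (Int.castRingHom (ZMod r)) := by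
  unfold upZ
  rw [Polynomial.map_map]
  congr 1
  exact RingHom.ext_int _ _

lemma upZ_monic {K : Type} [Field K] [NumberField K] {f : ℤ[X]} (hf : f.Monic) :
    (upZ K f).Monic := hf.map _

/-- the reduction of `weil` is a product of different linear factors -/
lemma weil_split {r : ℕ} [Fact r.Prime] (hr2 : r ≠ 2) {Q : ℕ} (hrQ : ¬ r ∣ Q) {h : ℤ[X]}
    (hm : h.Monic)
    (hs : h.map (Int.castRingHom (ZMod r)) ∈ splitSet h.natDegree r Q) :
    ∃ T : Finset (ZMod r), (weil Q h).map (Int.castRingHom (ZMod r)) = ∏ t ∈ T, (X - C t) := by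
  classical
  have hr : r.Prime := Fact.out
  obtain ⟨T, hT, hfac, hsq⟩ := hs
  have h2 : (2 : ZMod r) ≠ 0 := by
    have h1 : ((2 : ℕ) : ZMod r) ≠ 0 := by
      rw [Ne, ZMod.natCast_eq_zero_iff]
      intro h1
      exact hr2 ((Nat.prime_dvd_prime_iff_eq hr Nat.prime_two).1 h1)
    exact_mod_cast h1
  have hQ : (Q : ZMod r) ≠ 0 := by
    rw [Ne, ZMod.natCast_eq_zero_iff]
    exact hrQ
  have hc : ∀ t : ZMod r, ∃ c : ZMod r, t ∈ T → t ^ 2 - 4 * (Q : ZMod r) = c * c := by
    intro t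
    by_cases ht : t ∈ T
    · obtain ⟨c, hc⟩ := (hsq t ht).1
      exact ⟨c, fun _ => hc⟩
    · exact ⟨0, fun h => absurd h ht⟩
  choose c hc using hc
  have hc0 : ∀ t ∈ T, c t ≠ 0 := by
    intro t ht h0
    apply (hsq t ht).2
    rw [hc t ht, h0, mul_zero]
  let a : ZMod r → ZMod r := fun t => (t + c t) / 2
  let b : ZMod r → ZMod r := fun t => (t - c t) / 2
  have hab : ∀ t, a t + b t = t := by
    intro t
    simp only [a, b]
    field_simp
    ring
  have hab' : ∀ t ∈ T, a t * b t = Q := by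
    intro t ht
    have h3 := hc t ht
    have h4 : (4 : ZMod r) ≠ 0 := by
      have : (4 : ZMod r) = 2 * 2 := by norm_num
      rw [this]
      exact mul_ne_zero h2 h2
    simp only [a, b]
    have h5 : (t + c t) / 2 * ((t - c t) / 2) = (t ^ 2 - c t * c t) / 4 := by
      have : (4 : ZMod r) = 2 * 2 := by norm_num
      rw [this]
      field_simp
      ring
    rw [h5, ← h3]
    field_simp
    ring
  have hane : ∀ t ∈ T, a t ≠ 0 := fun t ht h0 => hQ (by rw [← hab' t ht, h0, zero_mul])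
  have hbne : ∀ t ∈ T, b t ≠ 0 := fun t ht h0 => hQ (by rw [← hab' t ht, h0, mul_zero])
  have hne : ∀ t ∈ T, a t ≠ b t := by
    intro t ht h
    apply hc0 t ht
    have h3 : a t - b t = c t := by
      simp only [a, b]
      field_simp
      ring
    rw [← h3, h, sub_self]
  -- a root determines `t`
  have hdet : ∀ x t, x ≠ 0 → x ^ 2 + (Q : ZMod r) = t * x → t = x + Q / x := by
    intro x t hx h
    apply mul_right_cancel₀ hx
    rw [add_mul, div_mul_cancel₀ _ hx, ← h]
    ring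
  have haq : ∀ t ∈ T, (a t) ^ 2 + (Q : ZMod r) = t * a t := by
    intro t ht
    linear_combination (a t) * hab t - hab' t ht
  have hbq : ∀ t ∈ T, (b t) ^ 2 + (Q : ZMod r) = t * b t := by
    intro t ht
    linear_combination (b t) * hab t - hab' t ht
  have hainj : Set.InjOn a T := by
    intro t ht u hu h
    have e1 := hdet (a t) t (hane t ht) (haq t ht)
    have e2 := hdet (a u) u (hane u hu) (haq u hu)
    rw [e1, e2, h]
  have hbinj : Set.InjOn b T := by
    intro t ht u hu h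
    have e1 := hdet (b t) t (hbne t ht) (hbq t ht)
    have e2 := hdet (b u) u (hbne u hu) (hbq u hu)
    rw [e1, e2, h]
  have hdisj : Disjoint (T.image a) (T.image b) := by
    rw [Finset.disjoint_left]
    intro x hx hx'
    obtain ⟨t, ht, rfl⟩ := Finset.mem_image.1 hx
    obtain ⟨u, hu, h⟩ := Finset.mem_image.1 hx'
    have e1 := hdet (a t) t (hane t ht) (haq t ht)
    have e2 := hdet (b u) u (hbne u hu) (hbq u hu)
    have e3 : t = u := by rw [e1, e2, h]
    subst e3
    exact hne t ht h.symm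
  set U := T.image a ∪ T.image b with hU
  have hUcard : U.card = 2 * h.natDegree := by
    rw [hU, Finset.card_union_of_disjoint hdisj, Finset.card_image_of_injOn hainj,
      Finset.card_image_of_injOn hbinj, hT]
    ring
  set W := (weil Q h).map (Int.castRingHom (ZMod r)) with hW
  have hWm : W.Monic := (weil_monic Q hm).map _
  have hWd : W.natDegree = 2 * h.natDegree := by
    rw [hW, (weil_monic Q hm).natDegree_map, weil_natDegree Q hm]
  have hroot : ∀ x ∈ U, W.IsRoot x := by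
    intro x hx
    have : ∃ t ∈ T, x ^ 2 + (Q : ZMod r) = t * x := by
      rcases Finset.mem_union.1 hx with hx | hx
      · obtain ⟨t, ht, rfl⟩ := Finset.mem_image.1 hx
        exact ⟨t, ht, haq t ht⟩
      · obtain ⟨t, ht, rfl⟩ := Finset.mem_image.1 hx
        exact ⟨t, ht, hbq t ht⟩
    obtain ⟨t, ht, h3⟩ := this
    have h4 := aeval_weil Q h x t h3
    have h5 : aeval t h = 0 := by
      rw [aeval_def, RingHom.ext_int (algebraMap ℤ (ZMod r)) (Int.castRingHom (ZMod r)), ← eval_map,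
        hfac, eval_prod]
      exact Finset.prod_eq_zero ht (by simp)
    rw [h5, mul_zero] at h4
    rw [IsRoot.def, hW, eval_map]
    exact h4
  have hle : U.val ≤ W.roots := by
    rw [Multiset.le_iff_subset U.nodup]
    intro x hx
    exact (mem_roots hWm.ne_zero).2 (hroot x hx)
  have heq : U.val = W.roots := by
    refine Multiset.eq_of_le_of_card_le hle ?_
    refine (card_roots' W).trans ?_
    rw [hWd, ← hUcard]
    rfl
  refine ⟨U, ?_⟩
  have h6 := prod_multiset_X_sub_C_of_monic_of_roots_card_eq hWm (by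
    rw [← heq, hWd, ← hUcard]
    rfl)
  rw [← h6, ← heq]
  rfl

lemma aeval_upZ {K : Type} [Field K] [NumberField K] {A : Type*} [CommRing A] [Algebra (𝓞 K) A]
    (f : ℤ[X]) (b : A) : aeval b (upZ K f) = aeval b f := by
  unfold upZ
  rw [aeval_def, eval₂_map, aeval_def]
  congr 1
  exact RingHom.ext_int _ _

/-- **The flip over `K`.** -/
theorem flipK (K : Type) [Field K] [NumberField K] (τ : K →+* ℂ) (r : ℕ) [Fact r.Prime]
    (φ : 𝓞 K →+* ZMod r) (hr2 : r ≠ 2) {J : Type} [Finite J] (P : J → (𝓞 K)[X])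
    (hP : ∀ j, (P j).Monic)
    (hPs : ∀ j, ∃ T : Finset (ZMod r), (P j).map φ = ∏ t ∈ T, (X - C t)) (Q : ℕ) (hrQ : ¬ r ∣ Q)
    (h : ℤ[X]) (hm : h.Monic) (M : ℕ)
    (hflip : h.map (Int.castRingHom (ZMod r)) ∈ flipSet h.natDegree M r Q) :
    ∃ s : ℂ ≃+* ℂ, (∀ x : K, s (τ x) = τ x) ∧ (∀ j x, IsRt τ (P j) x → s x = x) ∧
      ∃ α : ℂ, aeval α (weil Q h) = 0 ∧ s α = Q / α ∧ α ≠ Q / α ∧
        aeval (α + Q / α) (luc Q M) ≠ 0 ∧
        ∀ β, aeval β (weil Q h) = 0 → β ≠ α → β ≠ Q / α → s β = β := by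
  classical
  cases nonempty_fintype J
  have hr : r.Prime := Fact.out
  obtain ⟨T, t₀, hTc, ht₀, hfac, hns, hU, hsq⟩ := hflip
  -- the family
  let P' : J ⊕ Bool → (𝓞 K)[X] := fun o => match o with
    | Sum.inl j => P j
    | Sum.inr true => upZ K (weil Q h)
    | Sum.inr false => upZ K h
  have hP' : ∀ o, (P' o).Monic := by
    rintro (j | b)
    · exact hP j
    · cases b
      · exact upZ_monic hm
      · exact upZ_monic (weil_monic Q hm)
  let Qp : K[X] := ∏ o, (P' o).map (algebraMap (𝓞 K) K)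
  have hQp : Qp.Monic := monic_prod_of_monic _ _ fun o _ => (hP' o).map _
  obtain ⟨L, _, _, _, _, ι, hι, hspl⟩ := exists_field K τ Qp hQp.ne_zero
  have hspl' : ∀ o, (((P' o).map (algebraMap (𝓞 K) K)).map (algebraMap K L)).Splits := by
    intro o
    refine hspl.of_dvd ((hQp.map _).ne_zero) ?_
    exact Polynomial.map_dvd _ (Finset.dvd_prod_of_mem _ (Finset.mem_univ o))
  choose S hS using fun o => exists_roots (hP' o) (hspl' o)
  obtain ⟨k, _, _, _, Φ, σ, hσ, hΦ⟩ := exists_frob_rel K L r φ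
  letI : Algebra L ℂ := ι.toAlgebra
  obtain ⟨s, hs⟩ := extend_aut L (σ : L ≃+* L)
  have hs' : ∀ x : L, s (ι x) = ι (σ x) := hs
  have hone : ∀ a : 𝓞 L, s (ι (a : L)) = ι ((σ • a : 𝓞 L) : L) := fun a => hs' a
  let ψ : ZMod r →+* k := ZMod.castHom (dvd_refl r) k
  have hψ : Function.Injective ψ := ψ.injective
  have hsepT : ∀ T : Finset (ZMod r), (∏ t ∈ T, (X - C t)).Separable := fun T =>
    separable_prod_X_sub_C_iff'.2 fun a _ b _ h => h
  have hQ0 : Q ≠ 0 := by
    intro h0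
    apply hrQ
    rw [h0]
    exact dvd_zero _
  have hqk : (Q : k) ≠ 0 := by
    rw [Ne, CharP.cast_eq_zero_iff k r]
    exact hrQ
  have hqL : (Q : L) ≠ 0 := by exact_mod_cast hQ0
  have h2k : (2 : k) ≠ 0 := by
    have h1 : ((2 : ℕ) : k) ≠ 0 := by
      rw [Ne, CharP.cast_eq_zero_iff k r]
      intro h1
      exact hr2 ((Nat.prime_dvd_prime_iff_eq hr Nat.prime_two).1 h1)
    exact_mod_cast h1
  have hdisc : ∀ t ∈ T, t ^ 2 - 4 * (Q : ZMod r) ≠ 0 := by
    intro t ht h0
    by_cases hc : t = t₀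
    · subst hc
      rw [h0] at hns
      exact hns (IsSquare.zero)
    · exact (hsq t ht hc).2 h0
  -- the roots of `h`
  have hmemh : ∀ t : 𝓞 L, t ∈ S (Sum.inr false) ↔ aeval t h = 0 := by
    intro t
    rw [mem_iff (hS (Sum.inr false))]
    change aeval t (upZ K h) = 0 ↔ _
    rw [aeval_upZ]
  have hmaph : (P' (Sum.inr false)).map φ = ∏ t ∈ T, (X - C t) := by
    change (upZ K h).map φ = _
    rw [upZ_map, hfac]
  have hsep : ((P' (Sum.inr false)).map φ).Separable := by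
    rw [hmaph]
    exact hsepT T
  have hroot : ∀ t : 𝓞 L, aeval t h = 0 → ∃ u ∈ T, Φ t = ψ u := by
    intro t ht
    have h1 := (root_iff (hS (Sum.inr false)) hΦ (Φ t)).2 ⟨t, (hmemh t).2 ht, rfl⟩
    rw [hmaph, Polynomial.map_prod, eval_prod, Finset.prod_eq_zero_iff] at h1
    obtain ⟨u, hu, h2⟩ := h1
    rw [Polynomial.map_sub, map_X, map_C, eval_sub, eval_X, eval_C, sub_eq_zero] at h2
    exact ⟨u, hu, h2⟩
  have hinjh : ∀ t t' : 𝓞 L, aeval t h = 0 → aeval t' h = 0 → Φ t = Φ t' → t = t' := by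
    intro t t' ht ht' e
    exact inj_of_sep (hS (Sum.inr false)) hΦ hsep t ((hmemh t).2 ht) t' ((hmemh t').2 ht') e
  have hσt : ∀ t : 𝓞 L, aeval t h = 0 → aeval (σ • t) h = 0 := by
    intro t ht
    rw [← hmemh] at ht ⊢
    exact smul_mem (hS (Sum.inr false)) ht
  -- integrality
  have hint : ∀ β : L, aeval β (weil Q h) = 0 → ∃ b t : 𝓞 L, (b : L) = β ∧
      (t : L) = β + Q / β ∧ b ^ 2 + (Q : 𝓞 L) = t * b ∧ aeval t h = 0 := by
    intro β hβ
    have h1 : IsIntegral ℤ β := ⟨weil Q h, weil_monic Q hm, hβ⟩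
    have h2 := (Pool.Agent.W521.Frob.root_iff hQ0 hm β).1 hβ
    have h3 : IsIntegral ℤ (β + Q / β) := ⟨h, hm, h2.2⟩
    refine ⟨⟨β, h1⟩, ⟨β + Q / β, h3⟩, rfl, rfl, ?_, ?_⟩
    · apply RingOfIntegers.ext
      change β ^ 2 + (algebraMap (𝓞 L) L) (Q : 𝓞 L) = (β + Q / β) * β
      rw [map_natCast]
      have := h2.1
      field_simp
    · apply RingOfIntegers.coe_injective
      have h5 := aeval_algebraMap_apply L (⟨β + Q / β, h3⟩ : 𝓞 L) h
      exact h5.symm.trans (h2.2.trans (map_zero _).symm)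
  -- the reduction is injective on the roots
  have hφ0 : ∀ b t : 𝓞 L, b ^ 2 + (Q : 𝓞 L) = t * b → Φ b ≠ 0 := by
    intro b t hb h0
    have h1 := congrArg Φ hb
    rw [map_add, map_mul, map_pow, h0, map_natCast, mul_zero, zero_pow two_ne_zero, zero_add] at h1
    exact hqk h1
  have hquad : ∀ b t : 𝓞 L, b ^ 2 + (Q : 𝓞 L) = t * b → Φ b ^ 2 + (Q : k) = Φ t * Φ b := by
    intro b t hb
    have h1 := congrArg Φ hb
    rwa [map_add, map_mul, map_pow, map_natCast] at h1
  have hsame : ∀ b b' t : 𝓞 L, b ^ 2 + (Q : 𝓞 L) = t * b →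
      b' ^ 2 + (Q : 𝓞 L) = t * b' → b ≠ b' → b + b' = t := by
    intro b b' t hb hb' hne
    have h1 : (b - b') * (b + b' - t) = 0 := by linear_combination hb - hb'
    exact sub_eq_zero.1 ((mul_eq_zero.1 h1).resolve_left (sub_ne_zero.2 hne))
  have hinj : ∀ b b' t t' : 𝓞 L, b ^ 2 + (Q : 𝓞 L) = t * b →
      b' ^ 2 + (Q : 𝓞 L) = t' * b' → aeval t h = 0 → aeval t' h = 0 → Φ b = Φ b' → b = b' := by
    intro b b' t t' hb hb' ht ht' hbb
    have h1 := hquad b t hb
    have h2 := hquad b' t' hb'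
    rw [← hbb] at h2
    have h3 : Φ t = Φ t' := mul_right_cancel₀ (hφ0 b t hb) (h1.symm.trans h2)
    have h4 : t = t' := hinjh t t' ht ht' h3
    subst h4
    by_contra hne
    have h5 := hsame b b' t hb hb' hne
    obtain ⟨u, hu, hu2⟩ := hroot t ht
    have h6 : ψ (u ^ 2 - 4 * (Q : ZMod r)) = 0 := by
      rw [map_sub, map_pow, map_mul, map_natCast, map_ofNat, ← hu2, ← h5, map_add, ← hbb]
      rw [← h5, map_add, ← hbb] at h1
      linear_combination (-4 : k) * h1
    exact hdisc u hu ((map_eq_zero ψ).1 h6)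
  -- Galois action
  have hsmul : ∀ x : 𝓞 L, ((σ • x : 𝓞 L) : L) = σ (x : L) := fun x => rfl
  have hσq : ∀ b t : 𝓞 L, b ^ 2 + (Q : 𝓞 L) = t * b →
      (σ • b) ^ 2 + (Q : 𝓞 L) = (σ • t) * (σ • b) := by
    intro b t hb
    have h1 := congrArg (fun x => σ • x) hb
    simp only [smul_add, smul_mul', smul_pow'] at h1
    have h2 : σ • ((Q : ℕ) : 𝓞 L) = (Q : 𝓞 L) :=
      map_natCast (MulSemiringAction.toRingHom (Gal(L/K)) (𝓞 L) σ) Q
    rwa [h2] at h1
  have hψl : ∀ x : ZMod r, ψ x ^ r = ψ x := by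
    intro x
    rw [← map_pow, ZMod.pow_card]
  have h2l : (2 : k) ^ r = 2 := by
    have := hψl 2
    rwa [map_ofNat] at this
  -- the root `t` of `h` with image `t₀`
  obtain ⟨t, htr, hφt⟩ : ∃ t : 𝓞 L, aeval t h = 0 ∧ Φ t = ψ t₀ := by
    obtain ⟨a, ha, ha2⟩ := (root_iff (hS (Sum.inr false)) hΦ (ψ t₀)).1 (by
      rw [hmaph, Polynomial.map_prod, eval_prod]
      refine Finset.prod_eq_zero ht₀ ?_
      rw [Polynomial.map_sub, map_X, map_C, eval_sub, eval_X, eval_C]
      exact sub_self _)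
    exact ⟨a, (hmemh a).1 ha, ha2⟩
  -- the flipped pair
  have ht₁L : aeval (t : L) h = 0 := by
    rw [aeval_algebraMap_apply, htr, map_zero]
  obtain ⟨α, hαw, hαt⟩ : ∃ α : L, aeval α (weil Q h) = 0 ∧ α ^ 2 + (Q : L) = t * α := by
    -- a root in `ℂ` of the quadratic polynomial
    obtain ⟨z, hz⟩ := IsAlgClosed.exists_root (X ^ 2 - C (ι (t : L)) * X + C (Q : ℂ) : ℂ[X]) (by
      have : (X ^ 2 - C (ι (t : L)) * X + C (Q : ℂ) : ℂ[X]).natDegree = 2 := by
        compute_degree!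
      intro h0
      have h1 := natDegree_eq_of_degree_eq_some (n := 0) h0
      rw [this] at h1
      exact absurd h1 (by norm_num))
    simp only [IsRoot.def, eval_add, eval_sub, eval_pow, eval_X, eval_mul, eval_C] at hz
    have hz' : z ^ 2 + (Q : ℂ) = ι (t : L) * z := by linear_combination hz
    have hth : aeval (ι (t : L)) h = 0 := by
      have h2 := Polynomial.hom_eval₂ h (algebraMap ℤ L) ι (t : L)
      have h3 : eval₂ (algebraMap ℤ L) (t : L) h = 0 := ht₁L
      rw [h3, map_zero, RingHom.ext_int (ι.comp (algebraMap ℤ L)) (algebraMap ℤ ℂ)] at h2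
      exact h2.symm
    have hzw : aeval z (weil Q h) = 0 := by
      rw [aeval_weil Q h z (ι (t : L)) hz', hth, mul_zero]
    obtain ⟨a, ha, ha2⟩ := (isRt_iff hι (hS (Sum.inr true)) z).1 (by
      change IsRt τ (upZ K (weil Q h)) z
      rw [isRt_upZ]
      exact hzw)
    refine ⟨(a : L), ?_, ?_⟩
    · have h1 := (mem_iff (hS (Sum.inr true)) a).1 ha
      change aeval a (upZ K (weil Q h)) = 0 at h1
      rw [aeval_upZ] at h1
      rw [aeval_algebraMap_apply, h1, map_zero]
    · apply ι.injective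
      rw [map_add, map_pow, map_mul, map_natCast, ha2]
      exact hz'
  have hα0 : α ≠ 0 := by
    rintro rfl
    rw [zero_pow two_ne_zero, zero_add, mul_zero] at hαt
    exact hqL hαt
  have hθα : (t : L) = α + Q / α := by
    field_simp
    rw [hαt]
  obtain ⟨a, t', ha, ht', hat, -⟩ := hint α hαw
  have htt : t' = t := RingOfIntegers.coe_injective (ht'.trans hθα.symm)
  subst htt
  have hinv : (Q : L) / α = ((t' - a : 𝓞 L) : L) := by
    have h1 : ((t' - a : 𝓞 L) : L) = (t' : L) - a := map_sub _ _ _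
    rw [h1, hθα, ha]
    ring
  have hat' : (t' - a) ^ 2 + (Q : 𝓞 L) = t' * (t' - a) := by linear_combination hat
  have hq1 := hquad a t' hat
  have hl' : r = 2 * (r / 2) + 1 := by
    rcases hr.eq_two_or_odd' with h1 | h1
    · exact absurd h1 hr2
    · obtain ⟨c, hc⟩ := h1
      omega
  have hd0 : t₀ ^ 2 - 4 * (Q : ZMod r) ≠ 0 := hdisc t₀ ht₀
  have hdpow : (t₀ ^ 2 - 4 * (Q : ZMod r)) ^ (r / 2) = -1 := by
    rcases ZMod.pow_div_two_eq_neg_one_or_one r hd0 with h1 | h1
    · exact absurd ((ZMod.euler_criterion r hd0).2 h1) hns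
    · exact h1
  have hy : (2 * Φ a - ψ t₀) ^ 2 = ψ (t₀ ^ 2 - 4 * (Q : ZMod r)) := by
    rw [map_sub, map_pow, map_mul, map_natCast, map_ofNat, ← hφt]
    linear_combination (4 : k) * hq1
  have hyl : (2 * Φ a - ψ t₀) ^ r = -(2 * Φ a - ψ t₀) := by
    have e1 : (2 * Φ a - ψ t₀) ^ r = (2 * Φ a - ψ t₀) ^ (2 * (r / 2) + 1) := congrArg _ hl'
    rw [e1, pow_succ, pow_mul, hy, ← map_pow, hdpow, map_neg, map_one]
    ring
  have hal : Φ a ^ r = Φ (t' - a) := by
    have h1 : (2 * Φ a - ψ t₀) ^ r = (2 * Φ a) ^ r - ψ t₀ ^ r := sub_pow_char _ _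
    rw [h1, hψl, mul_pow, h2l] at hyl
    rw [map_sub, hφt]
    apply mul_left_cancel₀ h2k
    linear_combination hyl
  have hσa : σ • a = t' - a := by
    refine hinj (σ • a) (t' - a) (σ • t') t' (hσq a t' hat) hat' (hσt t' htr) htr ?_
    rw [hσ, hal]
  have hfix : ∀ β : L, aeval β (weil Q h) = 0 → β ≠ α → β ≠ Q / α → σ β = β := by
    intro β hβ hne1 hne2
    obtain ⟨b, t'', hb, ht'', hbt, htr''⟩ := hint β hβ
    obtain ⟨u, hu, hu2⟩ := hroot t'' htr''
    have hcase : u ≠ t₀ := by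
      rintro rfl
      have h1 : t'' = t' := hinjh t'' t' htr'' htr (by rw [hu2, hφt])
      subst h1
      by_cases h2 : a = b
      · exact hne1 (by rw [← hb, ← h2, ha])
      · have h3 := hsame a b t'' hat hbt h2
        apply hne2
        rw [hinv, ← h3, add_sub_cancel_left, hb]
    obtain ⟨⟨w, hw⟩, -⟩ := hsq u hu hcase
    have h1 : (2 * Φ b - ψ u) ^ 2 = ψ w ^ 2 := by
      rw [← map_pow ψ w 2, sq w, ← hw, map_sub, map_pow, map_mul, map_natCast, map_ofNat, ← hu2]
      linear_combination (4 : k) * hquad b t'' hbt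
    have h2 : ∃ v : ZMod r, 2 * Φ b = ψ v := by
      rcases sq_eq_sq_iff_eq_or_eq_neg.1 h1 with h3 | h3
      · exact ⟨u + w, by rw [map_add]; linear_combination h3⟩
      · exact ⟨u - w, by rw [map_sub]; linear_combination h3⟩
    obtain ⟨v, hv⟩ := h2
    have h3 : Φ b ^ r = Φ b := by
      have h4 := hψl v
      rw [← hv, mul_pow, h2l] at h4
      exact mul_left_cancel₀ h2k h4
    have h4 : σ • b = b := by
      refine hinj (σ • b) b (σ • t'') t'' (hσq b t'' hbt) hbt (hσt t'' htr'') htr'' ?_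
      rw [hσ, h3]
    rw [← hb, ← hsmul, h4]
  -- the transfer to `ℂ`
  have hupw : ∀ z : ℂ, aeval z (weil Q h) = 0 → ∃ β : L, aeval β (weil Q h) = 0 ∧ ι β = z := by
    intro z hz
    obtain ⟨b, hb, hb2⟩ := (isRt_iff hι (hS (Sum.inr true)) z).1 (by
      change IsRt τ (upZ K (weil Q h)) z
      rw [isRt_upZ]
      exact hz)
    refine ⟨(b : L), ?_, hb2⟩
    have h1 := (mem_iff (hS (Sum.inr true)) b).1 hb
    change aeval b (upZ K (weil Q h)) = 0 at h1
    rw [aeval_upZ] at h1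
    rw [aeval_algebraMap_apply, h1, map_zero]
  have hιd : ι ((Q : L) / α) = (Q : ℂ) / ι α := by rw [map_div₀, map_natCast]
  refine ⟨s, ?_, ?_, ι α, ?_, ?_, ?_, ?_, ?_⟩
  · intro x
    rw [← hι, hs', σ.commutes]
  · intro j x hx
    obtain ⟨b, hb, rfl⟩ := (isRt_iff hι (hS (Sum.inl j)) x).1 hx
    obtain ⟨TT, hTT⟩ := hPs j
    have h1 := (root_iff (hS (Sum.inl j)) hΦ (Φ b)).2 ⟨b, hb, rfl⟩
    change ((P j).map φ |>.map _).eval _ = 0 at h1
    rw [hTT, Polynomial.map_prod, eval_prod, Finset.prod_eq_zero_iff] at h1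
    obtain ⟨u, hu, h2⟩ := h1
    rw [Polynomial.map_sub, map_X, map_C, eval_sub, eval_X, eval_C, sub_eq_zero] at h2
    rw [hone, fix_case (hS (Sum.inl j)) hΦ hσ (by
      change ((P j).map φ).Separable
      rw [hTT]
      exact hsepT TT) hb h2]
  · have h2 := Polynomial.hom_eval₂ (weil Q h) (algebraMap ℤ L) ι α
    have h3 : eval₂ (algebraMap ℤ L) α (weil Q h) = 0 := hαw
    rw [h3, map_zero, RingHom.ext_int (ι.comp (algebraMap ℤ L)) (algebraMap ℤ ℂ)] at h2
    exact h2.symm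
  · rw [hs', ← hιd, hinv, ← hσa, hsmul, ha]
  · intro h1
    rw [← hιd] at h1
    have h1 := ι.injective h1
    rw [hinv, ← ha] at h1
    have h2 : a = t' - a := RingOfIntegers.coe_injective h1
    have h3 : 2 * Φ a - ψ t₀ = 0 := by
      have h4 := congrArg Φ h2
      rw [map_sub, hφt] at h4
      linear_combination h4
    rw [h3, zero_pow two_ne_zero] at hy
    exact hd0 ((map_eq_zero ψ).1 hy.symm)
  · intro h0
    rw [← hιd, ← map_add, ← hθα] at h0
    have h0' : aeval (t' : L) (luc Q M) = 0 := by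
      apply ι.injective
      have h2 := Polynomial.hom_eval₂ (luc Q M) (algebraMap ℤ L) ι (t' : L)
      rw [RingHom.ext_int (ι.comp (algebraMap ℤ L)) (algebraMap ℤ ℂ)] at h2
      rw [map_zero]
      exact h2.trans h0
    rw [aeval_algebraMap_apply] at h0'
    have h1 : aeval t' (luc Q M) = 0 := RingOfIntegers.coe_injective (h0'.trans (map_zero _).symm)
    have h2 : Φ (eval₂ (Int.castRingHom (𝓞 L)) t' (luc Q M)) = 0 := by
      have h3 : eval₂ (Int.castRingHom (𝓞 L)) t' (luc Q M) = aeval t' (luc Q M) := rfl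
      rw [h3, h1, map_zero]
    rw [Polynomial.hom_eval₂, RingHom.ext_int (Φ.comp (Int.castRingHom (𝓞 L)))
      (ψ.comp (Int.castRingHom (ZMod r))), hφt, ← Polynomial.hom_eval₂, ← eval_map] at h2
    exact hU ((map_eq_zero ψ).1 h2)
  · intro z hz hne1 hne2
    obtain ⟨β, hβ, rfl⟩ := hupw z hz
    rw [hs', hfix β hβ (fun e => hne1 (by rw [e])) (fun e => hne2 (by rw [e, hιd]))]

end Pool.Agent.L5helper19.AA
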