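import Mathlib

/-!
# Frobenius elements over a number field
-/

set_option autoImplicit false

namespace Pool.Agent.L5helper19.AA

open Polynomial NumberField

/-- automorphisms of subfields extend to `ℂ` -/
lemma extend_aut (K : Type) [Field K] [Algebra K ℂ] (σ : K ≃+* K) :
    ∃ φ : ℂ ≃+* ℂ, ∀ k : K, φ (algebraMap K ℂ k) = algebraMap K ℂ (σ k) := by
  obtain ⟨s, hs⟩ := exists_isTranscendenceBasis K ℂ
  let v : s → ℂ := Subtype.val
  have := IsAlgClosed.isAlgClosure_of_transcendence_basis v hs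
  let e : Algebra.adjoin K (Set.range v) ≃+* Algebra.adjoin K (Set.range v) :=
    (hs.1.aevalEquiv.symm.toRingEquiv.trans (MvPolynomial.mapEquiv s σ)).trans
      hs.1.aevalEquiv.toRingEquiv
  refine ⟨IsAlgClosure.equivOfEquiv ℂ ℂ e, fun k => ?_⟩
  have h1 : algebraMap K ℂ k = algebraMap (Algebra.adjoin K (Set.range v)) ℂ (algebraMap K _ k) := rfl
  rw [h1, IsAlgClosure.equivOfEquiv_algebraMap]
  have h2 : e (algebraMap K _ k) = algebraMap K _ (σ k) := by
    show hs.1.aevalEquiv (MvPolynomial.mapEquiv s σ (hs.1.aevalEquiv.symm (algebraMap K _ k))) = _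
    rw [AlgEquiv.commutes, MvPolynomial.algebraMap_eq, MvPolynomial.mapEquiv_apply, MvPolynomial.map_C,
      ← MvPolynomial.algebraMap_eq]
    exact AlgEquiv.commutes _ _
  rw [h2]
  rfl

lemma zmod_surj {R : Type} [Ring R] {r : ℕ} (φ : R →+* ZMod r) : Function.Surjective φ := by
  intro x
  obtain ⟨n, rfl⟩ := ZMod.intCast_surjective x
  exact ⟨n, map_intCast φ n⟩

/-- **A Frobenius element over a place of `K`.** -/
theorem exists_frob_rel (K : Type) [Field K] [NumberField K] (L : Type) [Field L] [NumberField L]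
    [Algebra K L] [IsGalois K L] (r : ℕ) [Fact r.Prime] (φ : 𝓞 K →+* ZMod r) :
    ∃ (k : Type) (_ : Field k) (_ : Finite k) (_ : CharP k r) (Φ : 𝓞 L →+* k) (σ : Gal(L/K)),
      (∀ x : 𝓞 L, Φ (σ • x) = Φ x ^ r) ∧
      ∀ a : 𝓞 K, Φ (algebraMap (𝓞 K) (𝓞 L) a) = ZMod.castHom (dvd_refl r) k (φ a) := by
  have hr : r.Prime := Fact.out
  have hsurj := zmod_surj φ
  have hker : (RingHom.ker φ).IsMaximal := RingHom.ker_isMaximal_of_surjective φ hsurj
  obtain ⟨Q, hQ, hQl⟩ := Ideal.exists_maximal_ideal_liesOver_of_isIntegral (S := 𝓞 L)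
    (RingHom.ker φ)
  have hunder : Q.under (𝓞 K) = RingHom.ker φ := (hQl.over).symm
  have hmemK : ∀ a : 𝓞 K, φ a = 0 → algebraMap (𝓞 K) (𝓞 L) a ∈ Q := by
    intro a ha
    have h1 : a ∈ Q.under (𝓞 K) := by
      rw [hunder]
      exact ha
    rwa [Ideal.under_def, Ideal.mem_comap] at h1
  have hmem : ((r : ℕ) : 𝓞 L) ∈ Q := by
    have := hmemK (r : 𝓞 K) (by rw [map_natCast, ZMod.natCast_self])
    rwa [map_natCast] at this
  have hchar : CharP (𝓞 L ⧸ Q) r := by
    rw [CharP.charP_iff_prime_eq_zero hr, ← map_natCast (Ideal.Quotient.mk Q),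
      Ideal.Quotient.eq_zero_iff_mem]
    exact hmem
  have hQ0 : Q ≠ ⊥ := by
    rintro rfl
    rw [Ideal.mem_bot] at hmem
    exact hr.ne_zero (by exact_mod_cast hmem)
  have hfin : Finite (𝓞 L ⧸ Q) := Ring.HasFiniteQuotients.finiteQuotient hQ0
  obtain ⟨σ, hσ⟩ := IsArithFrobAt.exists_of_isInvariant (𝓞 K) Gal(L/K) Q
  refine ⟨𝓞 L ⧸ Q, Ideal.Quotient.field Q, hfin, hchar, Ideal.Quotient.mk Q, σ, fun x => ?_,
    fun a => ?_⟩
  · have h1 := hσ x
    rw [← Ideal.Quotient.eq, map_pow] at h1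
    rw [hunder] at h1
    have h2 : Nat.card (𝓞 K ⧸ RingHom.ker φ) = r := by
      rw [Nat.card_congr (RingHom.quotientKerEquivOfSurjective hsurj).toEquiv, Nat.card_zmod]
    rw [h2] at h1
    exact h1
  · obtain ⟨n, hn⟩ := ZMod.intCast_surjective (φ a)
    have h1 := hmemK (a - n) (by rw [map_sub, map_intCast, hn, sub_self])
    rw [map_sub, map_intCast, ← Ideal.Quotient.eq, map_intCast] at h1
    rw [h1, ← hn, map_intCast]

end Pool.Agent.L5helper19.AA
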