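import Pool.Agent.L5helper19.AA.Frob1

/-!
# The action of the Frobenius element on the roots
-/

set_option autoImplicit false
set_option linter.all false

namespace Pool.Agent.L5helper19.AA

open Polynomial NumberField

/-- over a finite field the Frobenius permutes the roots of an irreducible polynomial cyclically -/
lemma frob_trans {r : ℕ} [Fact r.Prime] {k : Type} [Field k] [Finite k] [CharP k r]
    {g : (ZMod r)[X]} (hg : Irreducible g) {x y : k}
    (hx : (g.map (ZMod.castHom (dvd_refl r) k)).eval x = 0)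
    (hy : (g.map (ZMod.castHom (dvd_refl r) k)).eval y = 0) : ∃ n : ℕ, x ^ r ^ n = y := by
  letI : Algebra (ZMod r) k := ZMod.algebra k r
  have halg : algebraMap (ZMod r) k = ZMod.castHom (dvd_refl r) k := RingHom.ext_zmod _ _
  have hx' : aeval x g = 0 := by rw [aeval_def, halg, ← eval_map, hx]
  have hy' : aeval y g = 0 := by rw [aeval_def, halg, ← eval_map, hy]
  have hmin : minpoly (ZMod r) y = minpoly (ZMod r) x := by
    rw [← minpoly.eq_of_irreducible hg hx', ← minpoly.eq_of_irreducible hg hy']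
  obtain ⟨τ, hτ⟩ := (Normal.minpoly_eq_iff_mem_orbit k).1 hmin
  obtain ⟨n, hn⟩ := (FiniteField.bijective_frobeniusAlgEquivOfAlgebraic_pow (ZMod r) k).2 τ
  refine ⟨n, ?_⟩
  change τ x = y at hτ
  rw [← hτ, ← hn]
  change _ = (FiniteField.frobeniusAlgEquivOfAlgebraic (ZMod r) k ^ (n : ℕ)) x
  rw [AlgEquiv.coe_pow, FiniteField.coe_frobeniusAlgEquivOfAlgebraic_iterate, ZMod.card]

section core

variable {K : Type} [Field K] [NumberField K] {L : Type} [Field L] [NumberField L]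
    [Algebra K L] {r : ℕ} [Fact r.Prime] {φ : 𝓞 K →+* ZMod r}
    {k : Type} [Field k] [CharP k r] {Φ : 𝓞 L →+* k} {σ : Gal(L/K)}
    {P : (𝓞 K)[X]} {S : Multiset (𝓞 L)}

lemma mem_iff (hS : P.map (algebraMap (𝓞 K) (𝓞 L)) = (S.map (fun a => X - C a)).prod) (a : 𝓞 L) :
    a ∈ S ↔ aeval a P = 0 := by
  rw [aeval_def, ← eval_map, hS, eval_multiset_prod, Multiset.map_map, Multiset.prod_eq_zero_iff,
    Multiset.mem_map]
  constructor
  · intro h
    exact ⟨a, h, by simp⟩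
  · rintro ⟨b, hb, h⟩
    simp only [Function.comp_apply, eval_sub, eval_X, eval_C] at h
    rwa [sub_eq_zero.1 h]

lemma smul_mem (hS : P.map (algebraMap (𝓞 K) (𝓞 L)) = (S.map (fun a => X - C a)).prod) {a : 𝓞 L}
    (ha : a ∈ S) : σ • a ∈ S := by
  rw [mem_iff hS] at ha ⊢
  rw [aeval_def] at ha ⊢
  have h1 := Polynomial.hom_eval₂ P (algebraMap (𝓞 K) (𝓞 L))
    (MulSemiringAction.toRingHom Gal(L/K) (𝓞 L) σ) a
  rw [ha, map_zero] at h1
  have h2 : (MulSemiringAction.toRingHom Gal(L/K) (𝓞 L) σ).comp (algebraMap (𝓞 K) (𝓞 L)) =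
      algebraMap (𝓞 K) (𝓞 L) := by
    refine RingHom.ext fun x => ?_
    apply RingOfIntegers.coe_injective
    change σ (algebraMap K L x) = algebraMap K L x
    exact σ.commutes x
  rw [h2] at h1
  exact h1.symm

lemma map_eq (hS : P.map (algebraMap (𝓞 K) (𝓞 L)) = (S.map (fun a => X - C a)).prod)
    (hΦ : ∀ a : 𝓞 K, Φ (algebraMap (𝓞 K) (𝓞 L) a) = ZMod.castHom (dvd_refl r) k (φ a)) :
    (P.map φ).map (ZMod.castHom (dvd_refl r) k) = ((S.map Φ).map (fun a => X - C a)).prod := by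
  have h1 : (P.map φ).map (ZMod.castHom (dvd_refl r) k) =
      (P.map (algebraMap (𝓞 K) (𝓞 L))).map Φ := by
    rw [Polynomial.map_map, Polynomial.map_map]
    congr 1
    exact RingHom.ext fun a => (hΦ a).symm
  rw [h1, hS, Polynomial.map_multiset_prod, Multiset.map_map, Multiset.map_map]
  congr 1
  refine Multiset.map_congr rfl fun x _ => ?_
  simp

lemma root_iff (hS : P.map (algebraMap (𝓞 K) (𝓞 L)) = (S.map (fun a => X - C a)).prod)
    (hΦ : ∀ a : 𝓞 K, Φ (algebraMap (𝓞 K) (𝓞 L) a) = ZMod.castHom (dvd_refl r) k (φ a)) (y : k) :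
    ((P.map φ).map (ZMod.castHom (dvd_refl r) k)).eval y = 0 ↔ ∃ a ∈ S, Φ a = y := by
  rw [map_eq hS hΦ, eval_multiset_prod, Multiset.map_map, Multiset.map_map,
    Multiset.prod_eq_zero_iff, Multiset.mem_map]
  constructor
  · rintro ⟨a, ha, h⟩
    simp only [Function.comp_apply, eval_sub, eval_X, eval_C] at h
    exact ⟨a, ha, (sub_eq_zero.1 h).symm⟩
  · rintro ⟨a, ha, rfl⟩
    exact ⟨a, ha, by simp⟩

lemma inj_of_sep (hS : P.map (algebraMap (𝓞 K) (𝓞 L)) = (S.map (fun a => X - C a)).prod)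
    (hΦ : ∀ a : 𝓞 K, Φ (algebraMap (𝓞 K) (𝓞 L) a) = ZMod.castHom (dvd_refl r) k (φ a))
    (hsep : (P.map φ).Separable) : ∀ a ∈ S, ∀ b ∈ S, Φ a = Φ b → a = b := by
  have h1 : ((P.map φ).map (ZMod.castHom (dvd_refl r) k)).roots = S.map Φ := by
    rw [map_eq hS hΦ, roots_multiset_prod_X_sub_C]
  have h2 : (S.map Φ).Nodup := by
    rw [← h1]
    exact nodup_roots hsep.map
  exact fun a ha b hb h => Multiset.inj_on_of_nodup_map h2 a ha b hb h

lemma pow_smul_map (hσ : ∀ x : 𝓞 L, Φ (σ • x) = Φ x ^ r) (n : ℕ) (x : 𝓞 L) :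
    Φ ((σ ^ n) • x) = Φ x ^ r ^ n := by
  induction n with
  | zero => simp
  | succ n ih => rw [pow_succ', mul_smul, hσ, ih, ← pow_mul, pow_succ]

lemma pow_smul_mem (hS : P.map (algebraMap (𝓞 K) (𝓞 L)) = (S.map (fun a => X - C a)).prod)
    (n : ℕ) {a : 𝓞 L} (ha : a ∈ S) : (σ ^ n) • a ∈ S := smul_mem hS ha

/-- the cyclic case -/
lemma trans_case [Finite k]
    (hS : P.map (algebraMap (𝓞 K) (𝓞 L)) = (S.map (fun a => X - C a)).prod)
    (hΦ : ∀ a : 𝓞 K, Φ (algebraMap (𝓞 K) (𝓞 L) a) = ZMod.castHom (dvd_refl r) k (φ a))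
    (hσ : ∀ x : 𝓞 L, Φ (σ • x) = Φ x ^ r) (hsep : (P.map φ).Separable)
    {g : (ZMod r)[X]} (hg : Irreducible g) {a b : 𝓞 L} (ha : a ∈ S) (hb : b ∈ S)
    (ha' : (g.map (ZMod.castHom (dvd_refl r) k)).eval (Φ a) = 0)
    (hb' : (g.map (ZMod.castHom (dvd_refl r) k)).eval (Φ b) = 0) : ∃ n : ℕ, (σ ^ n) • a = b := by
  obtain ⟨n, hn⟩ := frob_trans hg ha' hb'
  refine ⟨n, inj_of_sep hS hΦ hsep _ (pow_smul_mem hS n ha) _ hb ?_⟩
  rw [pow_smul_map hσ, hn]

/-- a root with rational reduction is fixed -/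
lemma fix_case (hS : P.map (algebraMap (𝓞 K) (𝓞 L)) = (S.map (fun a => X - C a)).prod)
    (hΦ : ∀ a : 𝓞 K, Φ (algebraMap (𝓞 K) (𝓞 L) a) = ZMod.castHom (dvd_refl r) k (φ a))
    (hσ : ∀ x : 𝓞 L, Φ (σ • x) = Φ x ^ r) (hsep : (P.map φ).Separable)
    {a : 𝓞 L} (ha : a ∈ S) {t : ZMod r} (ht : Φ a = ZMod.castHom (dvd_refl r) k t) :
    σ • a = a := by
  refine inj_of_sep hS hΦ hsep _ (smul_mem hS ha) _ ha ?_
  rw [hσ, ht, ← map_pow, ZMod.pow_card]

end core

end Pool.Agent.L5helper19.AA
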