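import Pool.Agent.L5helper19.AA.Frob2
import Pool.Agent.L5helper29.AA.Defs

/-!
# Part FROB: Frobenius elements as automorphisms of `ℂ`
-/

set_option autoImplicit false
set_option linter.all false

namespace Pool.Agent.L5helper19.AA

open Polynomial NumberField Pool.Agent.W458.MF Pool.Agent.L5helper29.AA

/-- the splitting field in `ℂ` -/
lemma exists_field (K : Type) [Field K] [NumberField K] (τ : K →+* ℂ) (Q : K[X]) (hQ : Q ≠ 0) :
    ∃ (L : Type) (_ : Field L) (_ : NumberField L) (_ : Algebra K L) (_ : IsGalois K L)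
      (ι : L →+* ℂ), (∀ x : K, ι (algebraMap K L x) = τ x) ∧ (Q.map (algebraMap K L)).Splits := by
  letI : Algebra K ℂ := τ.toAlgebra
  have h1 : (Q.map (algebraMap K ℂ)).Splits := IsAlgClosed.splits _
  have h2 := IntermediateField.adjoin_rootSet_isSplittingField h1
  set L := IntermediateField.adjoin K (Q.rootSet ℂ) with hL
  have h3 : FiniteDimensional K L := IsSplittingField.finiteDimensional L Q
  have h4 : Normal K L := Normal.of_isSplittingField Q
  have h5 : IsGalois K L := ⟨⟩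
  have h6 : NumberField L := NumberField.of_module_finite K L
  exact ⟨L, inferInstance, h6, inferInstance, h5, algebraMap L ℂ, fun x => rfl, h2.splits⟩

/-- integral roots -/
lemma exists_roots {K : Type} [Field K] [NumberField K] {L : Type} [Field L] [NumberField L]
    [Algebra K L] {P : (𝓞 K)[X]} (hP : P.Monic)
    (hs : ((P.map (algebraMap (𝓞 K) K)).map (algebraMap K L)).Splits) :
    ∃ S : Multiset (𝓞 L), P.map (algebraMap (𝓞 K) (𝓞 L)) = (S.map (fun a => X - C a)).prod := by
  have hcomp : (algebraMap K L).comp (algebraMap (𝓞 K) K) =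
      (algebraMap (𝓞 L) L).comp (algebraMap (𝓞 K) (𝓞 L)) := rfl
  have hlift : ∀ R : Multiset L, (∀ x ∈ R, IsIntegral ℤ x) →
      ∃ R' : Multiset (𝓞 L), R'.map (algebraMap (𝓞 L) L) = R := by
    intro R
    induction R using Multiset.induction_on with
    | empty => exact fun _ => ⟨0, rfl⟩
    | cons a s ih =>
      intro hR
      obtain ⟨R', hR'⟩ := ih fun x hx => hR x (Multiset.mem_cons_of_mem hx)
      obtain ⟨a', ha'⟩ : ∃ a' : 𝓞 L, algebraMap (𝓞 L) L a' = a :=
        ⟨⟨a, hR a (Multiset.mem_cons_self a s)⟩, rfl⟩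
      refine ⟨a' ::ₘ R', ?_⟩
      rw [Multiset.map_cons, hR', ha']
  rw [Polynomial.map_map] at hs
  obtain ⟨R', hR'⟩ := hlift (P.map ((algebraMap K L).comp (algebraMap (𝓞 K) K))).roots (by
    intro x hx
    have h1 := (mem_roots'.1 hx).2
    rw [IsRoot.def, eval_map] at h1
    have h2 : IsIntegral (𝓞 K) x := ⟨P, hP, h1⟩
    exact isIntegral_trans x h2)
  refine ⟨R', ?_⟩
  apply Polynomial.map_injective (algebraMap (𝓞 L) L) RingOfIntegers.coe_injective
  rw [Polynomial.map_map, ← hcomp, hs.eq_prod_roots_of_monic (hP.map _), ← hR',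
    Polynomial.map_multiset_prod, Multiset.map_map, Multiset.map_map]
  congr 1
  refine Multiset.map_congr rfl fun x _ => ?_
  simp

lemma isRt_iff {K : Type} [Field K] [NumberField K] {L : Type} [Field L] [NumberField L]
    [Algebra K L] {τ : K →+* ℂ} {ι : L →+* ℂ} (hι : ∀ x : K, ι (algebraMap K L x) = τ x)
    {P : (𝓞 K)[X]} {S : Multiset (𝓞 L)}
    (hS : P.map (algebraMap (𝓞 K) (𝓞 L)) = (S.map (fun a => X - C a)).prod) (x : ℂ) :
    IsRt τ P x ↔ ∃ a ∈ S, ι (a : L) = x := by
  have h1 : P.map (τ.comp (algebraMap (𝓞 K) K)) =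
      (P.map (algebraMap (𝓞 K) (𝓞 L))).map (ι.comp (algebraMap (𝓞 L) L)) := by
    rw [Polynomial.map_map]
    congr 1
    exact RingHom.ext fun a => (hι a).symm
  unfold IsRt
  rw [h1, hS, Polynomial.map_multiset_prod, Multiset.map_map, eval_multiset_prod, Multiset.map_map,
    Multiset.prod_eq_zero_iff, Multiset.mem_map]
  constructor
  · rintro ⟨a, ha, h⟩
    simp only [Function.comp_apply, Polynomial.map_sub, map_X, map_C, eval_sub, eval_X,
      eval_C] at h
    exact ⟨a, ha, (sub_eq_zero.1 h).symm⟩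
  · rintro ⟨a, ha, rfl⟩
    refine ⟨a, ha, ?_⟩
    simp

theorem FROB : St_FROB := by
  intro K _ _ τ r _ φ J _ P R hP hR hRs
  classical
  cases nonempty_fintype J
  -- the family with `R`
  let P' : Option J → (𝓞 K)[X] := fun o => match o with
    | none => R.map (Int.castRingHom (𝓞 K))
    | some j => P j
  have hP' : ∀ o, (P' o).Monic := by
    rintro (_ | j)
    · exact hR.map _
    · exact hP j
  let Q : K[X] := ∏ o, (P' o).map (algebraMap (𝓞 K) K)
  have hQ : Q.Monic := monic_prod_of_monic _ _ fun o _ => (hP' o).map _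
  obtain ⟨L, _, _, _, _, ι, hι, hspl⟩ := exists_field K τ Q hQ.ne_zero
  have hspl' : ∀ o, (((P' o).map (algebraMap (𝓞 K) K)).map (algebraMap K L)).Splits := by
    intro o
    refine hspl.of_dvd ((hQ.map _).ne_zero) ?_
    exact Polynomial.map_dvd _ (Finset.dvd_prod_of_mem _ (Finset.mem_univ o))
  choose S hS using fun o => exists_roots (hP' o) (hspl' o)
  obtain ⟨k, _, _, _, Φ, σ, hσ, hΦ⟩ := exists_frob_rel K L r φ
  letI : Algebra L ℂ := ι.toAlgebra
  obtain ⟨s, hs⟩ := extend_aut L (σ : L ≃+* L)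
  have hs' : ∀ x : L, s (ι x) = ι (σ x) := hs
  have hpow : ∀ (n : ℕ) (a : 𝓞 L), (s ^ n : ℂ ≃+* ℂ) (ι (a : L)) = ι (((σ ^ n) • a : 𝓞 L) : L) := by
    intro n
    induction n with
    | zero => intro a; simp
    | succ n ih =>
      intro a
      rw [pow_succ', pow_succ', mul_smul]
      change s ((s ^ n : ℂ ≃+* ℂ) (ι (a : L))) = _
      rw [ih, hs']
      rfl
  have hone : ∀ a : 𝓞 L, s (ι (a : L)) = ι ((σ • a : 𝓞 L) : L) := fun a => hs' a
  have hsepT : ∀ T : Finset (ZMod r), (∏ t ∈ T, (X - C t)).Separable := fun T =>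
    separable_prod_X_sub_C_iff'.2 fun a _ b _ h => h
  -- products of different linear factors
  have hfix : ∀ o, (∃ T : Finset (ZMod r), (P' o).map φ = ∏ t ∈ T, (X - C t)) →
      ∀ x : ℂ, IsRt τ (P' o) x → s x = x := by
    rintro o ⟨T, hT⟩ x hx
    obtain ⟨a, ha, rfl⟩ := (isRt_iff hι (hS o) x).1 hx
    have h1 := (root_iff (hS o) hΦ (Φ a)).2 ⟨a, ha, rfl⟩
    rw [hT, Polynomial.map_prod, eval_prod, Finset.prod_eq_zero_iff] at h1
    obtain ⟨t, ht, h2⟩ := h1
    rw [Polynomial.map_sub, map_X, map_C, eval_sub, eval_X, eval_C, sub_eq_zero] at h2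
    rw [hone, fix_case (hS o) hΦ hσ (by rw [hT]; exact hsepT T) ha h2]
  refine ⟨s, ?_, ?_, ?_, ?_, ?_⟩
  · intro x
    rw [← hι, hs', σ.commutes]
  · intro z hz
    refine hfix none ?_ z ?_
    · obtain ⟨T, hT⟩ := hRs
      refine ⟨T, ?_⟩
      change (R.map (Int.castRingHom (𝓞 K))).map φ = _
      rw [Polynomial.map_map, ← hT]
      congr 1
      exact RingHom.ext_int _ _
    · unfold IsRt
      change ((R.map (Int.castRingHom (𝓞 K))).map _).eval z = 0
      rw [Polynomial.map_map, eval_map, ← hz, aeval_def]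
      congr 1
      exact RingHom.ext_int _ _
  · intro j hj x hx
    exact hfix (some j) hj x hx
  · intro j hirr x y hx hy
    obtain ⟨a, ha, rfl⟩ := (isRt_iff hι (hS (some j)) x).1 hx
    obtain ⟨b, hb, rfl⟩ := (isRt_iff hι (hS (some j)) y).1 hy
    obtain ⟨n, hn⟩ := trans_case (hS (some j)) hΦ hσ (PerfectField.separable_of_irreducible hirr) hirr ha hb
      ((root_iff (hS (some j)) hΦ (Φ a)).2 ⟨a, ha, rfl⟩)
      ((root_iff (hS (some j)) hΦ (Φ b)).2 ⟨b, hb, rfl⟩)
    exact ⟨n, by rw [hpow, hn]⟩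
  · intro j t g hg hirr hdeg
    have hnd : ¬ (X - C t) ∣ g := by
      intro h
      have h1 := (irreducible_X_sub_C t).associated_of_dvd hirr h
      have h2 := natDegree_eq_of_degree_eq (degree_eq_degree_of_associated h1)
      rw [natDegree_X_sub_C] at h2
      omega
    have hsep : ((P j).map φ).Separable := by
      rw [hg]
      exact (separable_X_sub_C).mul (PerfectField.separable_of_irreducible hirr)
        ((irreducible_X_sub_C t).coprime_iff_not_dvd.2 hnd)
    obtain ⟨a₀, ha₀, hΦ₀⟩ := (root_iff (hS (some j)) hΦ (ZMod.castHom (dvd_refl r) k t)).1 (by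
      change ((P j).map φ |>.map _).eval _ = 0
      rw [hg, Polynomial.map_mul, eval_mul, Polynomial.map_sub, map_X, map_C, eval_sub, eval_X,
        eval_C, sub_self, zero_mul])
    have key : ∀ a ∈ S (some j), ι (a : L) ≠ ι (a₀ : L) →
        (g.map (ZMod.castHom (dvd_refl r) k)).eval (Φ a) = 0 := by
      intro a ha hne
      have h1 := (root_iff (hS (some j)) hΦ (Φ a)).2 ⟨a, ha, rfl⟩
      change ((P j).map φ |>.map _).eval _ = 0 at h1
      rw [hg, Polynomial.map_mul, eval_mul, mul_eq_zero] at h1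
      refine h1.resolve_left fun h2 => hne ?_
      rw [Polynomial.map_sub, map_X, map_C, eval_sub, eval_X, eval_C, sub_eq_zero] at h2
      rw [inj_of_sep (hS (some j)) hΦ hsep _ ha _ ha₀ (h2.trans hΦ₀.symm)]
    refine ⟨ι (a₀ : L), (isRt_iff hι (hS (some j)) _).2 ⟨a₀, ha₀, rfl⟩, ?_, ?_⟩
    · rw [hone, fix_case (hS (some j)) hΦ hσ hsep ha₀ hΦ₀]
    · intro x y hx hy hxne hyne
      obtain ⟨a, ha, rfl⟩ := (isRt_iff hι (hS (some j)) x).1 hx
      obtain ⟨b, hb, rfl⟩ := (isRt_iff hι (hS (some j)) y).1 hy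
      obtain ⟨n, hn⟩ := trans_case (hS (some j)) hΦ hσ hsep hirr ha hb (key a ha hxne)
        (key b hb hyne)
      exact ⟨n, by rw [hpow, hn]⟩

end Pool.Agent.L5helper19.AA
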