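import Pool.Agent.L5helper29.AS.Rel

/-!
# Relation spaces: blocks of symplectic type
-/

set_option autoImplicit false
set_option linter.all false

namespace Pool.Agent.L5helper19.AA

open Finset

section Main

variable {G : Type*} [Group G] {J : Type*} [DecidableEq J] (X : J → Type*)
  [∀ j, Fintype (X j)] [∀ j, DecidableEq (X j)] [∀ j, MulAction G (X j)]

/-- **Relation lemma for a block with a duality `d`, if the group acts transitively and contains the
exchanges of single pairs.** -/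
theorem rel_sp (R : Submodule ℚ (∀ j, X j → ℚ))
    (hR : ∀ (g : G), ∀ m ∈ R, (fun j x => m j (g⁻¹ • x)) ∈ R) (j : J) (d : X j → X j)
    (hdd : ∀ x, d (d x) = x) (hdg : ∀ (g : G) (x : X j), g • d x = d (g • x))
    (htr : ∀ x y : X j, ∃ g : G, g • x = y)
    (hfl : ∀ x : X j, ∃ g : G, g • x = d x ∧ ∀ y, y ≠ x → y ≠ d x → g • y = y)
    (heven : ∀ x : X j, (Pi.single j ((Pi.single x (1 : ℚ) : X j → ℚ) + Pi.single (d x) 1) :
      ∀ j, X j → ℚ) ∈ R)
    (hx : ∃ x : X j, (Pi.single j (Pi.single x (1 : ℚ) : X j → ℚ) : ∀ j, X j → ℚ) ∉ R)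
    (h2 : ∃ g : G, (∀ i, i ≠ j → ∀ x : X i, g • x = x) ∧ ∃ x : X j, g • x ≠ x)
    (m : ∀ j, X j → ℚ) (hm : m ∈ R) (x : X j) : m j x = m j (d x) := by
  classical
  let S₁ : Submodule ℚ (X j → ℚ) := R.comap (LinearMap.single ℚ (fun j => X j → ℚ) j)
  have hS₁ : ∀ e, e ∈ S₁ ↔ (Pi.single j e : ∀ j, X j → ℚ) ∈ R := fun e => Iff.rfl
  have hS₁g : ∀ (g : G), ∀ e ∈ S₁, (fun x => e (g⁻¹ • x)) ∈ S₁ := by
    intro g e he
    rw [hS₁] at he ⊢
    have h4 := hR g _ he
    have h5 : (fun (j' : J) (x : X j') => (Pi.single j e : ∀ j, X j → ℚ) j' (g⁻¹ • x)) =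
        Pi.single j (fun x => e (g⁻¹ • x)) := by
      funext j' x
      by_cases hj : j' = j
      · subst hj
        rw [Pi.single_eq_same, Pi.single_eq_same]
      · rw [Pi.single_eq_of_ne hj, Pi.single_eq_of_ne hj]
        rfl
    rwa [h5] at h4
  -- no single element
  have hnot : ∀ x : X j, (Pi.single x (1 : ℚ) : X j → ℚ) ∉ S₁ := by
    intro y hy
    obtain ⟨x, hx⟩ := hx
    obtain ⟨g, hg⟩ := htr y x
    apply hx
    have h4 := hS₁g g _ hy
    have h5 : (fun z => (Pi.single y (1 : ℚ) : X j → ℚ) (g⁻¹ • z)) = Pi.single x 1 := by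
      funext z
      rw [Pi.single_apply, Pi.single_apply]
      have : g⁻¹ • z = y ↔ z = x := by rw [inv_smul_eq_iff, hg]
      simp only [this]
    rw [h5] at h4
    exact h4
  have hne : ∀ x : X j, d x ≠ x := by
    intro x h
    have h4 := heven x
    rw [h] at h4
    apply hnot x
    have h5 : (Pi.single x (1 : ℚ) : X j → ℚ) =
        (1 / 2 : ℚ) • ((Pi.single x (1 : ℚ) : X j → ℚ) + Pi.single x 1) := by
      rw [← two_smul ℚ, smul_smul]
      norm_num
    rw [h5]
    exact S₁.smul_mem _ h4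
  -- the flip of an odd function
  have hflip : ∀ (f : X j → ℚ), (∀ z, f (d z) = - f z) → ∀ (x : X j) (g : G), g • x = d x →
      (∀ y, y ≠ x → y ≠ d x → g • y = y) →
      (fun z => f z - f (g⁻¹ • z)) =
        (2 * f x) • ((Pi.single x (1 : ℚ) : X j → ℚ) - Pi.single (d x) 1) := by
    intro f hf x g hg hg'
    have e1 : g⁻¹ • d x = x := by rw [inv_smul_eq_iff, hg]
    have e2 : g⁻¹ • x = d x := by
      rw [inv_smul_eq_iff, hdg, hg, hdd]
    funext z
    simp only [Pi.smul_apply, Pi.sub_apply, Pi.single_apply, smul_eq_mul]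
    by_cases hz : z = x
    · subst hz
      rw [e2, hf, if_pos rfl, if_neg (hne z).symm]
      ring
    · by_cases hz' : z = d x
      · subst hz'
        rw [e1, hf, if_neg hz, if_pos rfl]
        ring
      · have e3 : g⁻¹ • z = z := by
          rw [inv_smul_eq_iff, hg' z hz hz']
        rw [e3, if_neg hz, if_neg hz']
        ring
  -- odd functions in `S₁` vanish
  have hodd : ∀ f ∈ S₁, (∀ z, f (d z) = - f z) → f = 0 := by
    intro f hfS hf
    funext x
    by_contra hfx
    obtain ⟨g, hg, hg'⟩ := hfl x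
    have h4 := S₁.sub_mem hfS (hS₁g g f hfS)
    have h5 : f - (fun z => f (g⁻¹ • z)) = fun z => f z - f (g⁻¹ • z) := rfl
    rw [h5, hflip f hf x g hg hg'] at h4
    have h6 : (2 * f x) ≠ 0 := mul_ne_zero two_ne_zero hfx
    have h7 := (S₁.smul_mem_iff h6).1 h4
    have h8 := S₁.add_mem h7 (heven x)
    apply hnot x
    have h9 : (Pi.single x (1 : ℚ) : X j → ℚ) - Pi.single (d x) 1 +
        (Pi.single x (1 : ℚ) + Pi.single (d x) 1) = (2 : ℚ) • (Pi.single x (1 : ℚ) : X j → ℚ) := by
      rw [two_smul]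
      abel
    rw [h9] at h8
    exact (S₁.smul_mem_iff two_ne_zero).1 h8
  -- the even part
  have heven' : ∀ f : X j → ℚ, (fun z => f z + f (d z)) ∈ S₁ := by
    intro f
    have h4 : (fun z => f z + f (d z)) =
        ∑ x : X j, f x • ((Pi.single x (1 : ℚ) : X j → ℚ) + Pi.single (d x) 1) := by
      funext z
      simp only [Finset.sum_apply, Pi.smul_apply, Pi.add_apply, smul_eq_mul, Pi.single_apply, mul_add,
        mul_ite, mul_one, mul_zero, sum_add_distrib]
      congr 1
      · rw [Finset.sum_ite_eq, if_pos (mem_univ _)]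
      · rw [Finset.sum_eq_single (d z)]
        · rw [hdd, if_pos rfl]
        · intro y _ hy
          rw [if_neg]
          rintro rfl
          exact hy (hdd y).symm
        · intro h
          exact absurd (mem_univ _) h
    rw [h4]
    exact S₁.sum_mem fun x _ => S₁.smul_mem _ (heven x)
  -- invariance
  have hinv : ∀ m ∈ R, ∀ g : G, (∀ i, i ≠ j → ∀ x : X i, g • x = x) → ∀ x : X j,
      m j (g⁻¹ • x) - m j (d (g⁻¹ • x)) = m j x - m j (d x) := by
    intro m hm g hg x
    have h4 : (fun x => m j x - m j (g⁻¹ • x)) ∈ S₁ := by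
      rw [hS₁]
      have h5 := R.sub_mem hm (hR g m hm)
      have h6 : m - (fun (j : J) (x : X j) => m j (g⁻¹ • x)) =
          Pi.single j (fun x => m j x - m j (g⁻¹ • x)) := by
        funext j' x
        by_cases hj : j' = j
        · subst hj
          rw [Pi.single_eq_same]
          rfl
        · rw [Pi.single_eq_of_ne hj]
          have h7 : g⁻¹ • x = x := by
            rw [inv_smul_eq_iff]
            exact (hg j' hj x).symm
          simp only [Pi.sub_apply, Pi.zero_apply]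
          rw [h7, sub_self]
      rwa [h6] at h5
    have h5 := S₁.sub_mem (S₁.smul_mem (2 : ℚ) h4) (heven' (fun x => m j x - m j (g⁻¹ • x)))
    have h6 := hodd _ h5 (by
      intro z
      simp only [Pi.sub_apply, Pi.smul_apply, smul_eq_mul]
      rw [hdd]
      ring)
    have h7 := congrFun h6 x
    simp only [Pi.sub_apply, Pi.smul_apply, smul_eq_mul, Pi.zero_apply] at h7
    have h8 : g⁻¹ • d x = d (g⁻¹ • x) := hdg g⁻¹ x
    rw [h8] at h7
    linarith
  -- the conclusion
  by_contra hcon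
  obtain ⟨s, hs, y, hy⟩ := h2
  obtain ⟨g, hg⟩ := htr x y
  -- `m₁ = g m`
  set m₁ : ∀ j, X j → ℚ := fun j x => m j (g⁻¹ • x) with hm₁
  have hm₁R : m₁ ∈ R := hR g m hm
  obtain ⟨t, ht, ht'⟩ := hfl y
  have hm₂R : (fun j x => m₁ j (t⁻¹ • x)) ∈ R := hR t m₁ hm₁R
  set f : X j → ℚ := fun z => m₁ j z - m₁ j (d z) with hf
  have hfodd : ∀ z, f (d z) = - f z := by
    intro z
    simp only [hf]
    rw [hdd]
    ring
  have hfy : f y ≠ 0 := by
    simp only [hf, hm₁]
    have e1 : g⁻¹ • y = x := by rw [inv_smul_eq_iff, hg]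
    have e2 : g⁻¹ • d y = d x := by rw [hdg, e1]
    rw [e1, e2]
    intro h
    exact hcon (by linarith)
  have hkey := hflip f hfodd y t ht ht'
  have h1 := hinv m₁ hm₁R s hs (s • y)
  have h2' := hinv _ hm₂R s hs (s • y)
  rw [inv_smul_smul] at h1 h2'
  have e1 := congrFun hkey y
  have e2 := congrFun hkey (s • y)
  simp only [Pi.smul_apply, Pi.sub_apply, Pi.single_apply, smul_eq_mul, if_true] at e1 e2
  rw [if_neg (hne y).symm] at e1
  rw [if_neg hy] at e2
  have e3 : f (t⁻¹ • y) = m₁ j (t⁻¹ • y) - m₁ j (t⁻¹ • d y) := by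
    simp only [hf]
    rw [← hdg]
  have e4 : f (t⁻¹ • (s • y)) = m₁ j (t⁻¹ • (s • y)) - m₁ j (t⁻¹ • d (s • y)) := by
    simp only [hf]
    rw [← hdg]
  rw [e3] at e1
  rw [e4] at e2
  simp only [hf] at e1 e2 hfy h1 h2'
  by_cases hsd : s • y = d y
  · rw [if_pos hsd] at e2
    rw [hsd] at e2 h1 h2'
    apply hfy
    linarith
  · rw [if_neg hsd] at e2
    apply hfy
    linarith

end Main

end Pool.Agent.L5helper19.AA
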