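import Pool.Agent.L5helper29.AA.Rel
import Pool.Agent.L5helper19.AA.Sp

/-!
# Multiplicative relations between the elements of blocks of unitary and symplectic type
-/

set_option autoImplicit false
set_option linter.all false

namespace Pool.Agent.L5helper19.AA

open Finset Pool.Agent.L5helper29.AS Pool.Agent.L5helper29.SE Pool.Agent.L5helper29.AA

/-- a block of symplectic type -/
structure BlkS (q : ℕ) (G : Subgroup (RingAut ℂ)) (S : Finset ℂ) : Prop where
  ne_zero : ∀ x ∈ S, x ≠ 0
  stable : ∀ σ ∈ G, ∀ x ∈ S, σ x ∈ S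
  dual : ∀ x ∈ S, (q : ℂ) / x ∈ S
  trans : ∀ x ∈ S, ∀ y ∈ S, ∃ σ ∈ G, σ x = y
  flip : ∀ x ∈ S, ∃ σ ∈ G, σ x = q / x ∧ ∀ y ∈ S, y ≠ x → y ≠ q / x → σ y = y
  generic : ∃ x ∈ S, ∀ N : ℕ, 0 < N → ∀ k : ℤ, x ^ N ≠ (q : ℂ) ^ k

section

variable {J : Type*} [Fintype J] [DecidableEq J] {p : ℕ} (A : J → Finset ℂ) (B : Finset ℂ)
  (G : Subgroup (RingAut ℂ))

/-- **The multiplicative relations.** -/
theorem rel_mix (hp : 1 < p) (hA : ∀ j, Blk G (A j) ∨ BlkS p G (A j)) (hB0 : ∀ b ∈ B, b ≠ 0)
    (hBG : ∀ σ ∈ G, ∀ b ∈ B, σ b ∈ B) (j : J)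
    (h2 : ∃ σ ∈ G, (∀ i, i ≠ j → ∀ x ∈ A i, σ x = x) ∧ (∀ b ∈ B, σ b = b) ∧
      ∃ x ∈ A j, σ x ≠ x)
    (m : ∀ o, opt A B o → ℤ) (N : ℕ) (hN : 0 < N) (k : ℤ)
    (hm : mono (opt A B) m ^ N = (p : ℂ) ^ k) :
    (Blk G (A j) → ∀ x y : A j, m (some j) x = m (some j) y) ∧
    (BlkS p G (A j) → ∀ x y : A j, (x : ℂ) * y = p → m (some j) x = m (some j) y) := by
  classical
  have hq0 : (0 : ℝ) < p := by exact_mod_cast (by omega : 0 < p)
  have hqC : (p : ℂ) ≠ 0 := by exact_mod_cast (by omega : p ≠ 0)
  have h0 : ∀ o, ∀ x ∈ opt A B o, x ≠ 0 := by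
    rintro (_ | j) x hx
    · exact hB0 x hx
    · rcases hA j with h | h
      · exact h.ne_zero x hx
      · exact h.ne_zero x hx
  have hG : ∀ σ ∈ G, ∀ o, ∀ x ∈ opt A B o, σ x ∈ opt A B o := by
    rintro σ hσ (_ | j) x hx
    · exact hBG σ hσ x hx
    · rcases hA j with h | h
      · exact h.stable σ hσ x hx
      · exact h.stable σ hσ x hx
  letI act : ∀ o, MulAction G (opt A B o) := fun o =>
    { smul := fun σ x => ⟨(σ : RingAut ℂ) (x : ℂ), hG σ σ.2 o x x.2⟩
      one_smul := fun x => Subtype.ext rfl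
      mul_smul := fun σ τ x => Subtype.ext rfl }
  have hsm : ∀ (o : Option J) (σ : G) (x : opt A B o),
      ((σ • x : opt A B o) : ℂ) = (σ : RingAut ℂ) (x : ℂ) :=
    fun j σ x => rfl
  set R := RelSp (opt A B) h0 (p : ℂ) hqC with hR
  -- stability
  have hRG : ∀ (g : G), ∀ m ∈ R, (fun o (x : opt A B o) => m o (g⁻¹ • x)) ∈ R := by
    rintro g m ⟨M, hM, m', hm', l, hl⟩
    refine ⟨M, hM, fun j x => m' j (g⁻¹ • x), fun j x => hm' j _, l, ?_⟩
    have e1 := congrArg (g : RingAut ℂ) hl
    rw [map_zpow₀, map_natCast] at e1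
    rw [← e1]
    unfold mono
    rw [map_prod]
    refine prod_congr rfl fun i _ => ?_
    rw [map_prod]
    refine (Fintype.prod_equiv (MulAction.toPerm g) _ _ ?_).symm
    intro x
    rw [map_zpow₀]
    simp only [MulAction.toPerm_apply, inv_smul_smul]
    rfl
  have h2' : ∃ g : G, (∀ i, i ≠ some j → ∀ x : opt A B i, g • x = x) ∧
      ∃ x : opt A B (some j), g • x ≠ x := by
    obtain ⟨σ, hσ, e1, e1', x, hx, e2⟩ := h2
    refine ⟨⟨σ, hσ⟩, ?_, ⟨x, hx⟩, ?_⟩
    · rintro (_ | i) hi x
      · exact Subtype.ext (e1' x x.2)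
      · exact Subtype.ext (e1 i (fun h => hi (by rw [h])) x x.2)
    · intro h
      exact e2 (congrArg Subtype.val h)
  have hmR : (fun o (x : opt A B o) => (m o x : ℚ)) ∈ R := by
    refine ⟨N, hN, fun j x => (N : ℤ) * m j x, ?_, k, ?_⟩
    · intro j x
      push_cast
      ring
    · rw [mono_smul h0, zpow_natCast, hm]
  constructor
  · -- the unitary case
    intro hAj x y
    have hirr : Irr G (opt A B (some j)) := by
      rcases hAj.large with h | ⟨h, h'⟩
      · apply irr_of_two
        intro x y x' y' hxy hxy'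
        obtain ⟨σ, hσ, e1, e2⟩ := h x x.2 y y.2 x' x'.2 y' y'.2
          (fun e => hxy (Subtype.ext e)) (fun e => hxy' (Subtype.ext e))
        exact ⟨⟨σ, hσ⟩, Subtype.ext e1, Subtype.ext e2⟩
      · apply irr_of_prime
        · rw [Fintype.card_coe]
          exact h
        · intro x y
          obtain ⟨σ, hσ, e1⟩ := h' x x.2 y y.2
          exact ⟨⟨σ, hσ⟩, Subtype.ext e1⟩
    have h3 : ¬ ∀ x y : opt A B (some j),
        (Pi.single (some j) ((Pi.single x (1 : ℚ) : opt A B (some j) → ℚ) - Pi.single y 1) :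
        ∀ o, opt A B o → ℚ) ∈ R := by
      intro h
      obtain ⟨x, hx, y, hy, hxy⟩ := hAj.generic
      have hne : (⟨x, hx⟩ : opt A B (some j)) ≠ ⟨y, hy⟩ := by
        intro h
        have h4 : x = y := congrArg Subtype.val h
        exact hxy 1 one_pos (by rw [h4])
      obtain ⟨M, hM, m', hm', l, hl⟩ := h ⟨x, hx⟩ ⟨y, hy⟩
      have e1 : m' (some j) ⟨x, hx⟩ = M := by
        have e2 := hm' (some j) ⟨x, hx⟩
        rw [Pi.single_eq_same, Pi.sub_apply, Pi.single_eq_same, Pi.single_eq_of_ne hne, sub_zero,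
          mul_one] at e2
        exact_mod_cast e2.symm
      have e2 : m' (some j) ⟨y, hy⟩ = -M := by
        have e2 := hm' (some j) ⟨y, hy⟩
        rw [Pi.single_eq_same, Pi.sub_apply, Pi.single_eq_same, Pi.single_eq_of_ne hne.symm,
          zero_sub, mul_neg, mul_one] at e2
        exact_mod_cast e2.symm
      have e3 : mono (opt A B) m' = x ^ (M : ℤ) * y ^ (-(M : ℤ)) := by
        unfold mono
        rw [prod_eq_single (some j)]
        · rw [← prod_subset (subset_univ ({⟨x, hx⟩, ⟨y, hy⟩} : Finset (opt A B (some j)))),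
            prod_pair hne, e1, e2]
          intro z _ hz
          rw [mem_insert, mem_singleton, not_or] at hz
          have e4 := hm' (some j) z
          rw [Pi.single_eq_same, Pi.sub_apply, Pi.single_eq_of_ne hz.1, Pi.single_eq_of_ne hz.2,
            sub_zero, mul_zero] at e4
          have e5 : m' (some j) z = 0 := by exact_mod_cast e4.symm
          rw [e5, zpow_zero]
        · intro i _ hi
          apply prod_eq_one
          intro z _
          have e4 := hm' i z
          rw [Pi.single_eq_of_ne hi, Pi.zero_apply, mul_zero] at e4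
          have e5 : m' i z = 0 := by exact_mod_cast e4.symm
          rw [e5, zpow_zero]
        · intro h
          exact absurd (mem_univ _) h
      rw [e3] at hl
      have hs0 : (0 : ℝ) < ‖y‖ := norm_pos_iff.2 (hAj.ne_zero y hy)
      have e4 : l = 0 := by
        have e5 := congrArg norm hl
        rw [norm_mul, norm_zpow, norm_zpow, norm_zpow, hAj.norm x hx y hy,
          ← zpow_add₀ hs0.ne', add_neg_cancel, zpow_zero, Complex.norm_natCast] at e5
        have e6 : (p : ℝ) ^ (0 : ℤ) = (p : ℝ) ^ l := by rw [zpow_zero, e5]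
        exact (zpow_right_injective₀ hq0 (by exact_mod_cast (by omega : p ≠ 1)) e6).symm
      rw [e4, zpow_zero, zpow_neg, mul_inv_eq_one₀ (zpow_ne_zero _ (hAj.ne_zero y hy)),
        zpow_natCast, zpow_natCast] at hl
      exact hxy M hM hl
    have := rel_const (G := G) (fun o => opt A B o) R hRG (some j) hirr h2' h3 _ hmR x y
    exact_mod_cast this
  · -- the symplectic case
    intro hAj x y hxy
    have hd0 : ∀ x : opt A B (some j), (x : ℂ) ≠ 0 := fun x => hAj.ne_zero x x.2
    let d : opt A B (some j) → opt A B (some j) := fun x => ⟨(p : ℂ) / x, hAj.dual x x.2⟩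
    have hdv : ∀ x, ((d x : opt A B (some j)) : ℂ) = p / x := fun x => rfl
    have hdd : ∀ x, d (d x) = x := by
      intro x
      apply Subtype.ext
      rw [hdv, hdv]
      have := hd0 x
      field_simp
    have hdg : ∀ (g : G) (x : opt A B (some j)), g • d x = d (g • x) := by
      intro g x
      apply Subtype.ext
      rw [hsm, hdv, hdv, hsm, map_div₀, map_natCast]
    have hne : ∀ x : opt A B (some j), d x ≠ x := by
      intro x h
      have e1 : ((x : ℂ)) ^ 2 = (p : ℂ) ^ (1 : ℤ) := by
        have e2 := congrArg Subtype.val h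
        rw [hdv, div_eq_iff (hd0 x)] at e2
        rw [zpow_one, e2]
        ring
      obtain ⟨y, hy, hgen⟩ := hAj.generic
      obtain ⟨σ, hσ, hσx⟩ := hAj.trans x x.2 y hy
      apply hgen 2 two_pos 1
      rw [← hσx, ← map_pow, e1, map_zpow₀, map_natCast]
    have hsingle : ∀ (x : opt A B (some j)) (M : ℤ) (m' : ∀ o, opt A B o → ℤ),
        (∀ o z, ((m' o z : ℤ) : ℚ) = M * (Pi.single (some j) (Pi.single x (1 : ℚ)) :
          ∀ o, opt A B o → ℚ) o z) → mono (opt A B) m' = (x : ℂ) ^ M := by
      intro x M m' h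
      unfold mono
      rw [prod_eq_single (some j), prod_eq_single x]
      · have e4 := h (some j) x
        rw [Pi.single_eq_same, Pi.single_eq_same, mul_one] at e4
        have e5 : m' (some j) x = M := by exact_mod_cast e4
        rw [e5]
      · intro z _ hz
        have e4 := h (some j) z
        rw [Pi.single_eq_same, Pi.single_eq_of_ne hz, mul_zero] at e4
        have e5 : m' (some j) z = 0 := by exact_mod_cast e4
        rw [e5, zpow_zero]
      · intro h
        exact absurd (mem_univ _) h
      · intro i _ hi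
        apply prod_eq_one
        intro z _
        have e4 := h i z
        rw [Pi.single_eq_of_ne hi, Pi.zero_apply, mul_zero] at e4
        have e5 : m' i z = 0 := by exact_mod_cast e4
        rw [e5, zpow_zero]
      · intro h
        exact absurd (mem_univ _) h
    have heven : ∀ x : opt A B (some j), (Pi.single (some j)
        ((Pi.single x (1 : ℚ) : opt A B (some j) → ℚ) + Pi.single (d x) 1) :
        ∀ o, opt A B o → ℚ) ∈ R := by
      intro x
      let e : opt A B (some j) → ∀ o, opt A B o → ℤ := fun x =>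
        Pi.single (some j) (Pi.single x (1 : ℤ))
      have he : ∀ x o z, ((e x o z : ℤ) : ℚ) =
          (Pi.single (some j) (Pi.single x (1 : ℚ)) : ∀ o, opt A B o → ℚ) o z := by
        intro x o z
        by_cases ho : o = some j
        · subst ho
          simp only [e]
          rw [Pi.single_eq_same, Pi.single_eq_same]
          by_cases hz : z = x
          · subst hz
            rw [Pi.single_eq_same, Pi.single_eq_same]
            norm_num
          · rw [Pi.single_eq_of_ne hz, Pi.single_eq_of_ne hz]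
            norm_num
        · simp only [e]
          rw [Pi.single_eq_of_ne ho, Pi.single_eq_of_ne ho]
          simp
      refine ⟨1, one_pos, e x + e (d x), ?_, 1, ?_⟩
      · intro o z
        simp only [Pi.add_apply]
        push_cast
        rw [he, he, one_mul]
        by_cases ho : o = some j
        · subst ho
          rw [Pi.single_eq_same, Pi.single_eq_same, Pi.single_eq_same]
          rfl
        · rw [Pi.single_eq_of_ne ho, Pi.single_eq_of_ne ho, Pi.single_eq_of_ne ho]
          simp
      · rw [mono_add h0, hsingle x 1 _ (fun o z => by rw [he]; norm_num),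
          hsingle (d x) 1 _ (fun o z => by rw [he]; norm_num), zpow_one, zpow_one, zpow_one, hdv]
        have := hd0 x
        field_simp
    have hx : ∃ x : opt A B (some j), (Pi.single (some j)
        (Pi.single x (1 : ℚ) : opt A B (some j) → ℚ) : ∀ o, opt A B o → ℚ) ∉ R := by
      obtain ⟨x, hx, hgen⟩ := hAj.generic
      refine ⟨⟨x, hx⟩, ?_⟩
      rintro ⟨M, hM, m', hm', l, hl⟩
      rw [hsingle ⟨x, hx⟩ M m' (fun o z => by rw [← hm']; push_cast; rfl)] at hl
      exact hgen M hM l (by rw [← hl, zpow_natCast])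
    have key := rel_sp (G := G) (fun o => opt A B o) R hRG (some j) d hdd hdg
      (fun x y => by
        obtain ⟨σ, hσ, h⟩ := hAj.trans x x.2 y y.2
        exact ⟨⟨σ, hσ⟩, Subtype.ext h⟩)
      (fun x => by
        obtain ⟨σ, hσ, h, h'⟩ := hAj.flip x x.2
        refine ⟨⟨σ, hσ⟩, Subtype.ext h, fun y hy hy' => Subtype.ext (h' y y.2 ?_ ?_)⟩
        · exact fun e => hy (Subtype.ext e)
        · exact fun e => hy' (Subtype.ext e))
      heven hx h2' _ hmR x
    have hdx : d x = y := by
      apply Subtype.ext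
      rw [hdv, div_eq_iff (hd0 x), mul_comm]
      exact hxy.symm
    rw [hdx] at key
    exact_mod_cast key

end

end Pool.Agent.L5helper19.AA
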