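import Pool.Agent.L5helper19.AA.Frob3

/-!
# Part POW: different powers
-/

set_option autoImplicit false
set_option linter.all false

namespace Pool.Agent.L5helper19.AA

open Polynomial NumberField Pool.Agent.W458.MF Pool.Agent.L5helper29.AA

theorem POW : St_POW := by
  intro K _ _ τ r _ φ P N e hP hsp x y hx hy hxy hpow
  obtain ⟨T, -, hT, hdiff⟩ := hsp
  obtain ⟨L, _, _, _, _, ι, hι, hspl⟩ := exists_field K τ (P.map (algebraMap (𝓞 K) K))
    (hP.map _).ne_zero
  obtain ⟨S, hS⟩ := exists_roots hP hspl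
  obtain ⟨k, _, _, _, Φ, σ, hσ, hΦ⟩ := exists_frob_rel K L r φ
  obtain ⟨a, ha, rfl⟩ := (isRt_iff hι hS x).1 hx
  obtain ⟨b, hb, rfl⟩ := (isRt_iff hι hS y).1 hy
  have hsep : (P.map φ).Separable := by
    rw [hT]
    exact separable_prod_X_sub_C_iff'.2 fun a _ b _ h => h
  have hrat : ∀ a ∈ S, ∃ t ∈ T, Φ a = ZMod.castHom (dvd_refl r) k t := by
    intro a ha
    have h1 := (root_iff hS hΦ (Φ a)).2 ⟨a, ha, rfl⟩
    rw [hT, Polynomial.map_prod, eval_prod, Finset.prod_eq_zero_iff] at h1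
    obtain ⟨t, ht, h2⟩ := h1
    rw [Polynomial.map_sub, map_X, map_C, eval_sub, eval_X, eval_C, sub_eq_zero] at h2
    exact ⟨t, ht, h2⟩
  obtain ⟨t, ht, hat⟩ := hrat a ha
  obtain ⟨u, hu, hbu⟩ := hrat b hb
  have hne : t ≠ u := by
    rintro rfl
    exact hxy (by rw [inj_of_sep hS hΦ hsep _ ha _ hb (hat.trans hbu.symm)])
  apply hdiff t ht u hu hne
  have h1 : a ^ e = b ^ e := by
    apply RingOfIntegers.coe_injective
    apply ι.injective
    rw [map_pow, map_pow, map_pow, map_pow]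
    exact hpow
  have h2 := congrArg Φ h1
  rw [map_pow, map_pow, hat, hbu, ← map_pow, ← map_pow] at h2
  exact (ZMod.castHom (dvd_refl r) k).injective h2

end Pool.Agent.L5helper19.AA
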