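import Pool.Agent.L5helper19.AA.Flip
import Pool.Agent.L5helper19.AA.Exc
import Pool.Agent.L5helper29.AA.FamM
import Pool.Agent.W338.MF.NT
import Pool.Agent.W976.MF.FLIP

/-!
# The patterns imply the form of the multiplicative relations: blocks of both types
-/

set_option autoImplicit false
set_option linter.all false

namespace Pool.Agent.L5helper19.AA

open scoped IntermediateField
open Polynomial NumberField Finset Pool.Agent.W458.MF Pool.Agent.W521.Frob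
  Pool.Agent.L5helper29.AA Pool.Agent.L5helper29.AS Pool.Agent.L5helper29.SE

lemma mem_rtsZ {f : ℤ[X]} (hf : f.Monic) {x : ℂ} : x ∈ rtsZ f ↔ aeval x f = 0 := by
  unfold rtsZ
  rw [Multiset.mem_toFinset, mem_roots (hf.map _).ne_zero, IsRoot.def, eval_map, aeval_def,
    RingHom.ext_int (Int.castRingHom ℂ) (algebraMap ℤ ℂ)]

lemma aeval_aut (σ : RingAut ℂ) {f : ℤ[X]} {x : ℂ} (hx : aeval x f = 0) : aeval (σ x) f = 0 := by
  have h2 := Polynomial.hom_eval₂ f (algebraMap ℤ ℂ) (σ : ℂ ≃+* ℂ).toRingHom x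
  have h3 : eval₂ (algebraMap ℤ ℂ) x f = 0 := hx
  rw [h3, map_zero, RingHom.ext_int ((σ : ℂ ≃+* ℂ).toRingHom.comp (algebraMap ℤ ℂ))
    (algebraMap ℤ ℂ)] at h2
  exact h2.symm

/-- `α ^ 2 / Q` has bounded degree -/
lemma sq_degree {Q : ℕ} {h : ℤ[X]} (hm : h.Monic) {α : ℂ} (hα : aeval α (weil Q h) = 0) :
    ∃ f : ℚ[X], f ≠ 0 ∧ f.natDegree ≤ 2 * h.natDegree ∧ aeval (α ^ 2 / Q) f = 0 := by
  have h1 : aeval α ((weil Q h).map (Int.castRingHom ℚ)) = 0 := by
    rw [aeval_def, eval₂_map, RingHom.ext_int ((algebraMap ℚ ℂ).comp (Int.castRingHom ℚ))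
      (algebraMap ℤ ℂ)]
    exact hα
  have hmw : ((weil Q h).map (Int.castRingHom ℚ)).Monic := (weil_monic Q hm).map _
  have hi : IsIntegral ℚ α := ⟨_, hmw, h1⟩
  have hd : Module.finrank ℚ ℚ⟮α⟯ ≤ 2 * h.natDegree := by
    rw [IntermediateField.adjoin.finrank hi]
    refine (natDegree_le_of_dvd (minpoly.dvd ℚ α h1) hmw.ne_zero).trans ?_
    rw [(weil_monic Q hm).natDegree_map, weil_natDegree Q hm]
  haveI : FiniteDimensional ℚ ℚ⟮α⟯ := IntermediateField.adjoin.finiteDimensional hi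
  have hαF : α ∈ ℚ⟮α⟯ := IntermediateField.mem_adjoin_simple_self ℚ α
  have hzF : α ^ 2 / (Q : ℂ) ∈ ℚ⟮α⟯ :=
    (ℚ⟮α⟯).div_mem ((ℚ⟮α⟯).pow_mem hαF 2) (natCast_mem _ Q)
  refine ⟨minpoly ℚ (⟨α ^ 2 / Q, hzF⟩ : ℚ⟮α⟯),
    minpoly.ne_zero (Algebra.IsIntegral.isIntegral _), (minpoly.natDegree_le _).trans hd, ?_⟩
  have h3 := minpoly.aeval ℚ (⟨α ^ 2 / Q, hzF⟩ : ℚ⟮α⟯)
  have h4 := congrArg (algebraMap ℚ⟮α⟯ ℂ) h3
  rw [map_zero, ← aeval_algebraMap_apply] at h4
  exact h4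

/-- **A flip and transitivity on the roots of `h` give a block of symplectic type.** -/
theorem blkS_of (G : Subgroup (RingAut ℂ)) {Q : ℕ} (hQ : 1 < Q) {h : ℤ[X]} (hm : h.Monic)
    (hnorm : ∀ x : ℂ, aeval x (weil Q h) = 0 → ‖x‖ = Real.sqrt Q) {M : ℕ} (hM : 0 < M)
    (huni : ∀ z : ℂ, (∃ t : ℕ, 0 < t ∧ z ^ t = 1) →
      (∃ f : ℚ[X], f ≠ 0 ∧ f.natDegree ≤ 2 * h.natDegree ∧ aeval z f = 0) → z ^ M = 1)
    (htr : ∀ θ θ' : ℂ, aeval θ h = 0 → aeval θ' h = 0 → ∃ σ ∈ G, σ θ = θ')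
    (hfl : ∃ s ∈ G, ∃ α : ℂ, aeval α (weil Q h) = 0 ∧ s α = Q / α ∧ α ≠ Q / α ∧
      aeval (α + Q / α) (luc Q M) ≠ 0 ∧
      ∀ β, aeval β (weil Q h) = 0 → β ≠ α → β ≠ Q / α → s β = β) :
    BlkS Q G (rtsZ (weil Q h)) := by
  have hQ0 : Q ≠ 0 := by omega
  have hQC : (Q : ℂ) ≠ 0 := by exact_mod_cast hQ0
  have hQR : (0 : ℝ) < Q := by exact_mod_cast (by omega : 0 < Q)
  have hmw := weil_monic Q hm
  have hmem : ∀ x, x ∈ rtsZ (weil Q h) ↔ aeval x (weil Q h) = 0 := fun x => mem_rtsZ hmw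
  have hne0 : ∀ x : ℂ, aeval x (weil Q h) = 0 → x ≠ 0 := fun x hx => root_ne_zero hQ0 hm hx
  have hdual : ∀ x : ℂ, aeval x (weil Q h) = 0 → aeval ((Q : ℂ) / x) (weil Q h) = 0 :=
    fun x hx => root_conj hQ0 hm hx
  have hth : ∀ x : ℂ, aeval x (weil Q h) = 0 → aeval (x + Q / x) h = 0 :=
    fun x hx => ((Pool.Agent.W521.Frob.root_iff hQ0 hm x).1 hx).2
  -- moving one root to another up to duality
  have hmove : ∀ x y : ℂ, aeval x (weil Q h) = 0 → aeval y (weil Q h) = 0 →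
      ∃ σ ∈ G, σ x = y ∨ σ x = Q / y := by
    intro x y hx hy
    obtain ⟨σ, hσ, h1⟩ := htr _ _ (hth x hx) (hth y hy)
    refine ⟨σ, hσ, ?_⟩
    have hy0 := hne0 y hy
    have hσx0 : σ x ≠ 0 := hne0 _ (aeval_aut σ hx)
    rw [map_add, map_div₀, map_natCast] at h1
    have h2 : (σ x - y) * (σ x - Q / y) = 0 := by
      have h3 : (σ x + Q / σ x) * σ x = (y + Q / y) * σ x := by rw [h1]
      have h4 : (σ x + Q / σ x) * σ x = σ x ^ 2 + Q := by field_simp
      have h5 : y * (Q / y) = Q := by field_simp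
      linear_combination h3 - h4 + h5
    rcases mul_eq_zero.1 h2 with h3 | h3
    · exact Or.inl (sub_eq_zero.1 h3)
    · exact Or.inr (sub_eq_zero.1 h3)
  obtain ⟨s, hsG, α, hα, hsα, hαne, hluc, hsfix⟩ := hfl
  have hα0 := hne0 α hα
  -- the flips
  have hflip : ∀ x : ℂ, aeval x (weil Q h) = 0 → ∃ σ ∈ G, σ x = Q / x ∧
      ∀ y, aeval y (weil Q h) = 0 → y ≠ x → y ≠ Q / x → σ y = y := by
    intro x hx
    obtain ⟨g, hg, hgx⟩ := hmove x α hx hα
    have hx0 := hne0 x hx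
    have hsgx : s (g x) = Q / g x := by
      rcases hgx with h1 | h1
      · rw [h1, hsα]
      · rw [h1, map_div₀, map_natCast, hsα]
    refine ⟨g⁻¹ * s * g, G.mul_mem (G.mul_mem (G.inv_mem hg) hsG) hg, ?_, ?_⟩
    · change g.symm (s (g x)) = Q / x
      rw [RingEquiv.symm_apply_eq, hsgx, map_div₀, map_natCast]
    · intro y hy hyx hyx'
      change g.symm (s (g y)) = y
      rw [RingEquiv.symm_apply_eq]
      refine hsfix _ (aeval_aut g hy) ?_ ?_
      · intro h1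
        rcases hgx with h2 | h2
        · exact hyx (g.injective (h1.trans h2.symm))
        · apply hyx'
          apply g.injective
          rw [h1, map_div₀, map_natCast, h2]
          field_simp
      · intro h1
        rcases hgx with h2 | h2
        · apply hyx'
          apply g.injective
          rw [h1, map_div₀, map_natCast, h2]
        · exact hyx (g.injective (h1.trans h2.symm))
  refine ⟨?_, ?_, ?_, ?_, ?_, ?_⟩
  · intro x hx
    exact hne0 x ((hmem x).1 hx)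
  · intro σ _ x hx
    exact (hmem _).2 (aeval_aut σ ((hmem x).1 hx))
  · intro x hx
    exact (hmem _).2 (hdual x ((hmem x).1 hx))
  · intro x hx y hy
    rw [hmem] at hx hy
    obtain ⟨g, hg, h1 | h1⟩ := hmove x y hx hy
    · exact ⟨g, hg, h1⟩
    · obtain ⟨t, ht, h2, -⟩ := hflip y hy
      refine ⟨t * g, G.mul_mem ht hg, ?_⟩
      change t (g x) = y
      have hy0 := hne0 y hy
      rw [h1, map_div₀, map_natCast, h2]
      field_simp
  · intro x hx
    rw [hmem] at hx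
    obtain ⟨t, ht, h2, h3⟩ := hflip x hx
    exact ⟨t, ht, h2, fun y hy => h3 y ((hmem y).1 hy)⟩
  · refine ⟨α, (hmem α).2 hα, ?_⟩
    intro N hN k hk
    apply hluc
    have hn := hnorm α hα
    have h1 : ((Q : ℝ)) ^ N = (Q : ℝ) ^ (2 * k) := by
      have h2 := congrArg norm hk
      rw [norm_pow, hn, norm_zpow, Complex.norm_natCast] at h2
      have h3 : (Real.sqrt Q ^ N) ^ 2 = (Q : ℝ) ^ N := by
        rw [← pow_mul, mul_comm, pow_mul, Real.sq_sqrt hQR.le]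
      rw [← h3, h2, mul_comm, zpow_mul]
      norm_cast
    have h2 : ((Q : ℂ)) ^ N = (Q : ℂ) ^ (2 * k) := by
      have h3 := congrArg (fun x : ℝ => (x : ℂ)) h1
      simp only [Complex.ofReal_pow, Complex.ofReal_zpow, Complex.ofReal_natCast] at h3
      exact h3
    have h3 : (α ^ 2 / Q) ^ N = 1 := by
      rw [div_pow, h2, ← pow_mul, mul_comm 2 N, pow_mul, hk, div_eq_one_iff_eq (zpow_ne_zero _ hQC),
        mul_comm, zpow_mul]
      norm_cast
    have h4 := huni (α ^ 2 / Q) ⟨N, hN, h3⟩ (sq_degree hm hα)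
    have h5 := Pool.Agent.W338.MF.luc_id Q α (Q / α) (by field_simp) M
    have h6 : α ^ M - (Q / α) ^ M = 0 := by
      rw [div_pow, div_eq_one_iff_eq (pow_ne_zero _ hQC)] at h4
      rw [div_pow, ← h4, ← pow_mul, mul_comm 2 M, pow_mul]
      field_simp
      ring
    rw [h6] at h5
    exact (mul_eq_zero.1 h5).resolve_left (sub_ne_zero.2 hαne)

theorem PATM : St_PATM := by
  intro K _ _ τ J J' _ _ _ _ Q hQ P h B hB0 R hR hBR hP h3 hm hd hnorm hnorm' e M he0 hM he huni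
    h1 h2 h4 h5 h6
  classical
  have hρ : 0 < Real.sqrt (Q : ℝ) := Real.sqrt_pos.2 (by exact_mod_cast (by omega : 0 < Q))
  have hQ0 : Q ≠ 0 := by omega
  have hcard : ∀ j, (rts τ (P j)).card = (P j).natDegree := by
    intro j
    obtain ⟨r, hr, φ, -, -, -, hirr, -⟩ := h1 j
    exact rts_card (hP j) φ hirr.2.2
  have hmem : ∀ j x, x ∈ rts τ (P j) ↔ IsRt τ (P j) x := fun j x => mem_rts (hP j)
  have hmemZ : ∀ i x, x ∈ rtsZ (weil Q (h i)) ↔ aeval x (weil Q (h i)) = 0 :=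
    fun i x => mem_rtsZ (weil_monic Q (hm i))
  have hst : ∀ j, ∀ σ ∈ GK τ B, ∀ x ∈ rts τ (P j), σ x ∈ rts τ (P j) :=
    fun j σ hσ x hx => rts_stable (hP j) hσ.1 hx
  -- the first elements
  have k1 : ∀ j, ∃ σ ∈ GK τ B, (∀ i, i ≠ j → ∀ x ∈ rts τ (P i), σ x = x) ∧
      (∀ i, ∀ x ∈ rtsZ (weil Q (h i)), σ x = x) ∧
      ∀ x ∈ rts τ (P j), ∀ y ∈ rts τ (P j), ∃ k : ℕ, (σ ^ k : RingAut ℂ) x = y := by
    intro j
    obtain ⟨r, hr, φ, hr2, hrQ, hRr, hirr, hsp, hsp'⟩ := h1 j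
    let P' : J ⊕ J' → (𝓞 K)[X] := fun o => match o with
      | Sum.inl j => P j
      | Sum.inr i => upZ K (weil Q (h i))
    obtain ⟨σ, a1, a2, a3, a4, -⟩ := FROB K τ r φ (J ⊕ J') P' R (by
      rintro (i | i)
      · exact hP i
      · exact upZ_monic (weil_monic Q (hm i))) hR hRr
    refine ⟨σ, ⟨a1, fun b hb => a2 b (hBR b hb)⟩, ?_, ?_, ?_⟩
    · intro i hi x hx
      obtain ⟨T, -, hT, -⟩ := hsp i hi
      exact a3 (Sum.inl i) ⟨T, hT⟩ x ((hmem i x).1 hx)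
    · intro i x hx
      refine a3 (Sum.inr i) ?_ x ?_
      · obtain ⟨T, hT⟩ := weil_split hr2 hrQ (hm i) (hsp' i)
        exact ⟨T, (upZ_map φ _).trans hT⟩
      · change IsRt τ (upZ K (weil Q (h i))) x
        rw [isRt_upZ]
        exact (hmemZ i x).1 hx
    · intro x hx y hy
      exact a4 (Sum.inl j) hirr.2.2 x y ((hmem j x).1 hx) ((hmem j y).1 hy)
  -- the second elements
  have k2 : ∀ j, ∃ σ ∈ GK τ B, ∃ x₀ ∈ rts τ (P j), σ x₀ = x₀ ∧
      ∀ x ∈ rts τ (P j), ∀ y ∈ rts τ (P j), x ≠ x₀ → y ≠ x₀ →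
        ∃ k : ℕ, (σ ^ k : RingAut ℂ) x = y := by
    intro j
    obtain ⟨r, hr, φ, hRr, a, g, hag, hg⟩ := h2 j
    obtain ⟨σ, a1, a2, -, -, a5⟩ := FROB K τ r φ J P R hP hR hRr
    obtain ⟨x₀, b1, b2, b3⟩ := a5 j a g hag hg.2.2 (by
      have := hg.2.1
      have := h3 j
      omega)
    refine ⟨σ, ⟨a1, fun b hb => a2 b (hBR b hb)⟩, x₀, (hmem j x₀).2 b1, b2, ?_⟩
    intro x hx y hy
    exact b3 x y ((hmem j x).1 hx) ((hmem j y).1 hy)
  have htwo : ∀ j, ∀ x ∈ rts τ (P j), ∀ y ∈ rts τ (P j), ∀ x' ∈ rts τ (P j), ∀ y' ∈ rts τ (P j),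
      x ≠ y → x' ≠ y' → ∃ σ ∈ GK τ B, σ x = x' ∧ σ y = y' := by
    intro j
    obtain ⟨σ₁, b1, -, -, b3⟩ := k1 j
    obtain ⟨σ₂, c1, x₀, c2, c3, c4⟩ := k2 j
    exact two_trans (hst j) b1 c1 b3 c2 c3 c4
  have hgt : ∀ j, ∃ x ∈ rts τ (P j), ∃ y ∈ rts τ (P j), x ≠ y := by
    intro j
    have h5 : 1 < (rts τ (P j)).card := by rw [hcard]; have := h3 j; omega
    obtain ⟨x, hx, y, hy, hxy⟩ := one_lt_card.1 h5
    exact ⟨x, hx, y, hy, hxy⟩
  have hblk : ∀ j, Blk (GK τ B) (rts τ (P j)) := by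
    intro j
    refine ⟨?_, ?_, hst j, Or.inl (htwo j), ?_⟩
    · intro x hx h
      have h5 := hnorm j x ((hmem j x).1 hx)
      rw [h, norm_zero] at h5
      exact hρ.ne h5
    · intro x hx y hy
      rw [hnorm j x ((hmem j x).1 hx), hnorm j y ((hmem j y).1 hy)]
    · obtain ⟨x, hx, y, hy, hxy⟩ := hgt j
      refine ⟨x, hx, y, hy, fun N hN h => ?_⟩
      obtain ⟨r, hr, φ, hsp⟩ := h4 j
      have h5 := POW K τ r φ (P j) _ e (hP j) hsp x y
        ((hmem j x).1 hx) ((hmem j y).1 hy) hxy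
      have hy0 : y ≠ 0 := by
        intro h6
        have h7 := hnorm j y ((hmem j y).1 hy)
        rw [h6, norm_zero] at h7
        exact hρ.ne h7
      have h6 := he j (x / y) ⟨N, hN, by rw [div_pow, h, div_self (pow_ne_zero _ hy0)]⟩
        (quot_degree τ (hP j) ((hmem j x).1 hx) ((hmem j y).1 hy))
      rw [div_pow, div_eq_one_iff_eq (pow_ne_zero _ hy0)] at h6
      exact h5 h6
  -- the flips
  have k5 : ∀ i, ∃ s ∈ GK τ B, (∀ j, ∀ x ∈ rts τ (P j), s x = x) ∧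
      (∀ i', i' ≠ i → ∀ x ∈ rtsZ (weil Q (h i')), s x = x) ∧
      ∃ α : ℂ, aeval α (weil Q (h i)) = 0 ∧ s α = Q / α ∧ α ≠ Q / α ∧
        aeval (α + Q / α) (luc Q M) ≠ 0 ∧
        ∀ β, aeval β (weil Q (h i)) = 0 → β ≠ α → β ≠ Q / α → s β = β := by
    intro i
    obtain ⟨r, hr, φ, hr2, hrQ, hRr, hfl, hsp', hsp⟩ := h6 i
    let P' : Option (J ⊕ {i' : J' // i' ≠ i}) → (𝓞 K)[X] := fun o => match o with
      | none => upZ K R
      | some (Sum.inl j) => P j
      | some (Sum.inr i') => upZ K (weil Q (h i'))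
    obtain ⟨s, a1, a2, a3⟩ := flipK K τ r φ hr2 P' (by
      rintro (_ | j | i')
      · exact upZ_monic hR
      · exact hP j
      · exact upZ_monic (weil_monic Q (hm i'))) (by
      rintro (_ | j | i')
      · obtain ⟨T, hT⟩ := hRr
        exact ⟨T, (upZ_map φ _).trans hT⟩
      · obtain ⟨T, -, hT, -⟩ := hsp j
        exact ⟨T, hT⟩
      · obtain ⟨T, hT⟩ := weil_split hr2 hrQ (hm i') (hsp' i' i'.2)
        exact ⟨T, (upZ_map φ _).trans hT⟩) Q hrQ (h i) (hm i) M hfl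
    refine ⟨s, ⟨a1, fun b hb => a2 none b ?_⟩, ?_, ?_, a3⟩
    · change IsRt τ (upZ K R) b
      rw [isRt_upZ]
      exact hBR b hb
    · intro j x hx
      exact a2 (some (Sum.inl j)) x ((hmem j x).1 hx)
    · intro i' hi' x hx
      refine a2 (some (Sum.inr ⟨i', hi'⟩)) x ?_
      change IsRt τ (upZ K (weil Q (h i'))) x
      rw [isRt_upZ]
      exact (hmemZ i' x).1 hx
  have hblkS : ∀ i, BlkS Q (GK τ B) (rtsZ (weil Q (h i))) := by
    intro i
    refine blkS_of (GK τ B) hQ (hm i) (hnorm' i) hM (huni i) ?_ ?_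
    · intro θ θ' hθ hθ'
      obtain ⟨r, hr, φ, hRr, hirr⟩ := h5 i
      obtain ⟨σ, a1, a2, -, a4, -⟩ := FROB K τ r φ Unit (fun _ => upZ K (h i)) R
        (fun _ => upZ_monic (hm i)) hR hRr
      obtain ⟨k, hk⟩ := a4 () (by rw [upZ_map]; exact hirr.2.2) θ θ'
        ((isRt_upZ (h i) θ).2 hθ) ((isRt_upZ (h i) θ').2 hθ')
      exact ⟨σ ^ k, (GK τ B).pow_mem ⟨a1, fun b hb => a2 b (hBR b hb)⟩ k, hk⟩
    · obtain ⟨s, b1, -, -, b2⟩ := k5 i
      exact ⟨s, b1, b2⟩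
  have hrel : RelMix Q (GK τ B) (both (fun j => rts τ (P j)) (fun i => rtsZ (weil Q (h i)))) B := by
    refine relMix hQ ?_ hB0 (fun σ hσ b hb => by rw [hσ.2 b hb]; exact hb) ?_
    · rintro (j | i)
      · exact Or.inl (hblk j)
      · exact Or.inr (hblkS i)
    · rintro (j | i)
      · obtain ⟨σ, b1, b2, b2', b3⟩ := k1 j
        refine ⟨σ, b1, ?_, fun b hb => b1.2 b hb, ?_⟩
        · rintro (j' | i') hne x hx
          · exact b2 j' (fun e => hne (by rw [e])) x hx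
          · exact b2' i' x hx
        · by_contra hcon
          push Not at hcon
          obtain ⟨x, hx, y, hy, hxy⟩ := hgt j
          obtain ⟨k, hk⟩ := b3 x hx y hy
          apply hxy
          rw [← hk]
          have hfixk : ∀ k : ℕ, (σ ^ k : RingAut ℂ) x = x := by
            intro k
            induction k with
            | zero => rfl
            | succ k ih =>
              rw [pow_succ]
              change (σ ^ k : RingAut ℂ) (σ x) = x
              rw [hcon x hx, ih]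
          exact (hfixk k).symm
      · obtain ⟨s, b1, b2, b2', α, c1, c2, c3, -⟩ := k5 i
        refine ⟨s, b1, ?_, fun b hb => b1.2 b hb, α, (hmemZ i α).2 c1, ?_⟩
        · rintro (j' | i') hne x hx
          · exact b2 j' x hx
          · exact b2' i' (fun e => hne (by rw [e])) x hx
        · rw [c2]
          exact c3.symm
  refine ⟨?_, hcard, ?_, ?_⟩
  · intro m N hN k n hmm
    have key := hrel m N hN k n hmm
    refine ⟨fun j x y => (key (Sum.inl j)).1 (hblk j) x y,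
      fun i x y hxy => (key (Sum.inr i)).2 (hblkS i) x y hxy⟩
  · -- separability
    have hsep := (Pool.Agent.W338.MF.nt Pool.Agent.W976.MF.FLIP (fun _ : J' => Q) h R M hM
      (fun _ => by omega) hm hd hR huni (fun i => by
        obtain ⟨r, hr, φ, -, hirr⟩ := h5 i
        exact ⟨r, hr.out, hirr⟩) (fun i => by
        obtain ⟨r, hr, φ, hr2, hrQ, hRr, hfl, hsp', -⟩ := h6 i
        exact ⟨r, hr.out, hr2, fun _ => hrQ, hRr, hfl, hsp'⟩)).2
    intro i
    have h7 : (((weil Q (h i)).map (Int.castRingHom ℚ)).map (algebraMap ℚ ℂ)).Separable :=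
      (hsep i).map
    rw [Polynomial.map_map, RingHom.ext_int ((algebraMap ℚ ℂ).comp (Int.castRingHom ℚ))
      (Int.castRingHom ℂ)] at h7
    unfold rtsZ
    rw [Multiset.toFinset_card_of_nodup (nodup_roots h7),
      splits_iff_card_roots.1 (IsAlgClosed.splits ((weil Q (h i)).map (Int.castRingHom ℂ))),
      (weil_monic Q (hm i)).natDegree_map, weil_natDegree Q (hm i)]
  · intro i x hx
    refine ⟨(hblkS i).dual x hx, ?_⟩
    intro hxx
    have hx0 := (hblkS i).ne_zero x hx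
    have e1 : x ^ 2 = (Q : ℂ) ^ (1 : ℤ) := by
      rw [div_eq_iff hx0] at hxx
      rw [zpow_one, hxx]
      ring
    obtain ⟨y, hy, hgen⟩ := (hblkS i).generic
    obtain ⟨σ, hσ, hσx⟩ := (hblkS i).trans x hx y hy
    apply hgen 2 two_pos 1
    rw [← hσx, ← map_pow, e1, map_zpow₀, map_natCast]

end Pool.Agent.L5helper19.AA
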